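import Pool.Agent.Lib.MP_64d474_lc.A7.Faithb70

set_option autoImplicit false

/-!
# From faithfulness to all polynomials in the products; EXCH2 from EXCH
-/

namespace Pool.Agent.Lib.MP_64d474_lc.A7

open MvPolynomial

universe u v w

/-- a homomorphism keeping the independent subfamilies of `T` is injective on `F[T]` -/
theorem inj_of_faithful {F A B : Type u} [Field F] [CommRing A] [IsDomain A] [Algebra F A]
    [CommRing B] [IsDomain B] [Algebra F B] {m : ℕ} (T : Fin m → A) (φ : A →ₐ[F] B)
    (hφ : ∀ (l : ℕ) (e : Fin l → Fin m), AlgebraicIndependent F (fun j => T (e j)) →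
      AlgebraicIndependent F (fun j => φ (T (e j))))
    (h : A) (hh : h ∈ Algebra.adjoin F (Set.range T)) (hzero : φ h = 0) : h = 0 := by
  classical
  by_contra h0
  obtain ⟨s, hs, hmax⟩ := Finset.exists_max_image
    (Finset.univ.filter fun s : Finset (Fin m) => AlgebraicIndependent F (fun j : s => T j))
    Finset.card ⟨∅, by
      simp only [Finset.mem_filter, Finset.mem_univ, true_and]
      exact algebraicIndependent_empty_type⟩
  simp only [Finset.mem_filter, Finset.mem_univ, true_and] at hs hmax
  have hs' : AlgebraicIndepOn F T (s : Set (Fin m)) := hs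
  have halg : ∀ i, IsAlgebraic (Algebra.adjoin F (T '' (s : Set (Fin m)))) (T i) := by
    intro i
    by_cases hi : i ∈ s
    · exact isAlgebraic_algebraMap
        (⟨T i, Algebra.subset_adjoin ⟨i, hi, rfl⟩⟩ : Algebra.adjoin F (T '' (s : Set (Fin m))))
    · by_contra hcon
      have h1 : AlgebraicIndepOn F T (insert i (s : Set (Fin m))) := hs'.insert hcon
      have h2 : AlgebraicIndependent F (fun j : (insert i s : Finset (Fin m)) => T j) := by
        have h3 : ((insert i s : Finset (Fin m)) : Set (Fin m)) = insert i (s : Set (Fin m)) :=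
          Finset.coe_insert i s
        rw [← h3] at h1
        exact h1
      have h4 := hmax _ h2
      rw [Finset.card_insert_of_notMem hi] at h4
      omega
  have halgh : IsAlgebraic (Algebra.adjoin F (T '' (s : Set (Fin m)))) h := by
    have hle : Algebra.adjoin F (Set.range T) ≤
        (Subalgebra.algebraicClosure (Algebra.adjoin F (T '' (s : Set (Fin m))))
          A).restrictScalars F := by
      rw [Algebra.adjoin_le_iff]
      rintro _ ⟨i, rfl⟩
      exact halg i
    exact hle hh
  obtain ⟨q, hq0, hdvd⟩ := halgh.exists_nonzero_dvd (mem_nonZeroDivisors_of_ne_zero h0)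
  let e : Fin s.card ≃ s := s.equivFin.symm
  have hT' : AlgebraicIndependent F (fun j : Fin s.card => T (e j)) := hs.comp e e.injective
  have hind := hφ s.card (fun j => (e j : Fin m)) hT'
  have hq : (q : A) ∈ Algebra.adjoin F (Set.range fun j : Fin s.card => T (e j)) := by
    have h5 : (Set.range fun j : Fin s.card => T (e j)) = T '' (s : Set (Fin m)) := by
      ext p
      constructor
      · rintro ⟨j, rfl⟩
        exact ⟨e j, (e j).2, rfl⟩
      · rintro ⟨i, hi, rfl⟩
        exact ⟨e.symm ⟨i, hi⟩, by simp⟩
    rw [h5]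
    exact q.2
  rw [Algebra.adjoin_range_eq_range_aeval] at hq
  obtain ⟨P, hP⟩ := hq
  have hP0 : P ≠ 0 := by
    rintro rfl
    apply hq0
    apply Subtype.ext
    rw [← hP]
    simp
  obtain ⟨g, hg⟩ := hdvd
  have hq' : (algebraMap (Algebra.adjoin F (T '' (s : Set (Fin m)))) A) q = (q : A) := rfl
  rw [hq'] at hg
  have h6 : φ (q : A) = 0 := by
    rw [hg, map_mul, hzero, zero_mul]
  rw [← hP] at h6
  have h7 : MvPolynomial.aeval (fun j : Fin s.card => φ (T (e j))) P = 0 := by
    rw [← h6]
    change _ = φ ((MvPolynomial.aeval fun j : Fin s.card => T (e j)) P)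
    rw [← AlgHom.comp_apply, MvPolynomial.comp_aeval]
  exact hP0 ((injective_iff_map_eq_zero _).1 hind P h7)

theorem seeds_mono {r r' : ℕ} (d : ℕ) (h : r ≤ r') : seeds r d ≤ seeds r' d := by
  unfold seeds
  have h1 : (r * d + 1) ^ r ≤ (r' * d + 1) ^ r' :=
    (Nat.pow_le_pow_left (Nat.add_le_add_right (Nat.mul_le_mul_right d h) 1) r).trans (Nat.pow_le_pow_right (Nat.succ_pos _) h)
  have h2 : (d + 1) ^ r ≤ (d + 1) ^ r' := Nat.pow_le_pow_right (Nat.succ_pos _) h
  gcongr

/-- every polynomial in products of transcendence degree at most `r` -/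
theorem trdeg_of (hF : StFAITH.{u}) (F : Type u) [Field F] [CharZero F] (m k r d s : ℕ)
    (I : Type) [Fintype I] (P : I → MvPolynomial (Fin m) F) (n : Fin k → I → ℕ)
    (hs : seeds r d ≤ s) (hd : ∀ i, (P i).totalDegree ≤ d)
    (hr : ∀ (l : ℕ) (e : Fin l → Fin k),
      AlgebraicIndependent F (fun j => ∏ i, P i ^ n (e j) i) → l ≤ r)
    (H : MvPolynomial (Fin k) F)
    (hH : S3.gen F m s (aeval (fun j => ∏ i, P i ^ n j i) H) = 0) :
    aeval (fun j => ∏ i, P i ^ n j i) H = 0 := by
  refine inj_of_faithful (fun j => ∏ i, P i ^ n j i) (S3.gen F m s) ?_ _ ?_ hH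
  · intro l e he
    exact hF F m l d s I P (fun j => n (e j)) ((seeds_mono d (hr l e he)).trans hs) hd he
  · rw [Algebra.adjoin_range_eq_range_aeval]
    exact ⟨H, rfl⟩

theorem all_of (hF : StFAITH.{u}) : StALL.{u} := by
  intro F _ _ m k d s I _ P n H hs hd hH
  refine trdeg_of hF F m k k d s I P n hs hd ?_ H hH
  intro l e he
  have h1 : Function.Injective e := by
    intro a b hab
    apply he.injective
    simp only [hab]
  simpa using Fintype.card_le_of_injective e h1

theorem exch2_of (hE : StEXCH.{u}) : StEXCH2.{u} := by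
  classical
  intro F _ m r c hc
  obtain ⟨κ, hκ, h⟩ := hE F m r c hc
  refine ⟨κ, hκ, ?_⟩
  let K := FractionRing (MvPolynomial (Fin m) F)
  let x : Fin m → K := fun k => algebraMap (MvPolynomial (Fin m) F) K (X k)
  let τ : MvPolynomial (Fin r) K →ₐ[K] MvPolynomial (Fin r) K :=
    aeval fun a => X a - C (x (κ a))
  let τ' : MvPolynomial (Fin r) K →ₐ[K] MvPolynomial (Fin r) K :=
    aeval fun a => X a + C (x (κ a))
  have hττ : ∀ p, τ' (τ p) = p := by
    intro p
    have : τ'.comp τ = AlgHom.id K _ := by
      ext a
      simp [τ, τ', algHom_C]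
    exact DFunLike.congr_fun this p
  have hinj : Function.Injective τ := Function.LeftInverse.injective hττ
  have h2 := h.map' hinj
  have h3 : (τ ∘ fun i => aeval (R := F) (S₁ := MvPolynomial (Fin r) K)
      (fun k => C (algebraMap (MvPolynomial (Fin m) F) K (X k)) +
        ∑ a : Fin r, if κ a = k then X a else 0) (c i)) =
      fun i => subk F κ (fun k => algebraMap (MvPolynomial (Fin m) F) K (X k)) (c i) := by
    funext i
    have h4 : (τ.restrictScalars F).comp (aeval (R := F) (S₁ := MvPolynomial (Fin r) K)
        (fun k => C (algebraMap (MvPolynomial (Fin m) F) K (X k)) +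
          ∑ a : Fin r, if κ a = k then X a else 0)) =
        subk F κ (fun k => algebraMap (MvPolynomial (Fin m) F) K (X k)) := by
      apply MvPolynomial.algHom_ext
      intro k
      rw [AlgHom.comp_apply, aeval_X, subk, aeval_X]
      change τ _ = _
      rw [map_add, map_sum, algHom_C]
      split_ifs with hk
      · obtain ⟨a, ha⟩ := id hk
        have hch : hk.choose = a := hκ (hk.choose_spec.trans ha.symm)
        rw [Finset.sum_eq_single a]
        · rw [if_pos ha, hch]
          simp only [τ, aeval_X, x, ha, algebraMap_eq]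
          ring
        · intro b _ hb
          rw [if_neg, map_zero]
          intro h3
          exact hb (hκ (h3.trans ha.symm))
        · intro h3
          exact absurd (Finset.mem_univ a) h3
      · rw [Finset.sum_eq_zero, add_zero]
        · rfl
        · intro a _
          rw [if_neg, map_zero]
          intro h3
          exact hk ⟨a, h3⟩
    exact DFunLike.congr_fun h4 (c i)
  rw [h3] at h2
  exact h2

end Pool.Agent.Lib.MP_64d474_lc.A7
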