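import Pool.Agent.Lib.MP_64d474_lc.S3.Defs69

set_option autoImplicit false

/-!
# Any bounded number of products of low degree polynomials: definitions and statements of the rows

Page: `64d474_AK70.md`.  `VInd v t`: only the trivial Laurent monomial in the `t j` has value `1`.
-/

namespace Pool.Agent.Lib.MP_64d474_lc.A7

open MvPolynomial

universe u v w

/-- the family `t` is value-independent: a Laurent monomial of value `1` is trivial -/
def VInd {E : Type*} {Γ : Type*} {ι : Type*} [Field E] [LinearOrderedCommGroupWithZero Γ]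
    [Fintype ι] (v : Valuation E Γ) (t : ι → E) : Prop :=
  ∀ ν : ι → ℤ, v (∏ j, t j ^ ν j) = 1 → ν = 0

/-- Row VAL: valuations with prescribed positive Laurent monomials. -/
def StVAL : Prop :=
  ∀ (K Ω : Type u) [Field K] [Field Ω] [Algebra K Ω] (r : ℕ) (t : Fin r → Ω),
    AlgebraicIndependent K t → ∀ pos : (Fin r → ℤ) → Prop, ¬ pos 0 →
    (∀ a b, pos a → pos b → pos (a + b)) →
    ∃ V : ValuationSubring Ω, (∀ a : K, algebraMap K Ω a ∈ V) ∧
      ∀ ν : Fin r → ℤ, pos ν → V.valuation (∏ j, t j ^ ν j) < 1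

/-- Row DOM: dominant monomials. `v` is trivial on `K`. -/
def StDOM : Prop :=
  ∀ (K E Γ : Type u) [Field K] [Field E] [Algebra K E] [LinearOrderedCommGroupWithZero Γ]
    (v : Valuation E Γ) (r : ℕ) (t : Fin r → E),
    (∀ a : K, a ≠ 0 → v (algebraMap K E a) = 1) → (∀ j, t j ≠ 0) → VInd v t →
    AlgebraicIndependent K t ∧
    ∀ h : MvPolynomial (Fin r) K, h ≠ 0 → ∃ ν ∈ h.support,
      v (aeval t h) = v (∏ j, t j ^ ν j) ∧
      ∀ μ ∈ h.support, v (∏ j, t j ^ μ j) ≤ v (∏ j, t j ^ ν j)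

/-- Row CORE: a value-independent core `P ∘ c` among the `P i`. -/
def StCORE : Prop :=
  ∀ (K E Γ : Type u) [Field K] [Field E] [Algebra K E] [LinearOrderedCommGroupWithZero Γ]
    (v : Valuation E Γ) (r : ℕ) (I : Type) [Fintype I] (P : I → E) (n : Fin r → I → ℕ),
    (∀ a : K, a ≠ 0 → v (algebraMap K E a) = 1) → (∀ i, P i ≠ 0) →
    (∀ (l : ℕ) (y : Fin l → E), AlgebraicIndependent K y → l ≤ r) →
    VInd v (fun j => ∏ i, P i ^ n j i) →
    ∃ c : Fin r → I, VInd v (fun j => P (c j)) ∧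
      ∀ i, ∃ (a : ℕ) (ν : Fin r → ℤ), 0 < a ∧ v (P i ^ a) = v (∏ j, P (c j) ^ ν j)

/-- Row BEZ: at most `(r d + 1) ^ r` solutions of `f (q) = t` with `t` algebraically independent. -/
def StBEZ : Prop :=
  ∀ (K Ω : Type u) [Field K] [Field Ω] [Algebra K Ω] (r d : ℕ)
    (f : Fin r → MvPolynomial (Fin r) K) (t : Fin r → Ω),
    (∀ j, (f j).totalDegree ≤ d) → AlgebraicIndependent K t →
    ∀ A : Finset (Fin r → Ω), (∀ q ∈ A, ∀ j, aeval q (f j) = t j) → A.card ≤ (r * d + 1) ^ r

/-- Row NEWT: if no root of a split polynomial is a unit, then exactly one coefficient dominates. -/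
def StNEWT : Prop :=
  ∀ (Ω Γ : Type u) [Field Ω] [IsAlgClosed Ω] [LinearOrderedCommGroupWithZero Γ]
    (v : Valuation Ω Γ) (h : Polynomial Ω), h ≠ 0 →
    (∀ x, h.IsRoot x → v x ≠ 1) → ∃ j, ∀ i, i ≠ j → v (h.coeff i) < v (h.coeff j)

/-- Row ROOT: transfer of one unit `A / B` from `E` to `Ω` through the field `k`. -/
def StROOT : Prop :=
  ∀ (k E Ω Γ₀ Γ₁ : Type u) [Field k] [Field E] [Field Ω] [IsAlgClosed Ω] [Algebra k E]
    [Algebra k Ω] [LinearOrderedCommGroupWithZero Γ₀] [LinearOrderedCommGroupWithZero Γ₁]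
    (v₀ : Valuation E Γ₀) (v₁ : Valuation Ω Γ₁) (r : ℕ) (x : Fin r → E)
    (p : Fin r → MvPolynomial (Fin r) k) (t : Fin r → Ω) (A B : MvPolynomial (Fin r) k),
    AlgebraicIndependent k x →
    (∀ a : k, a ≠ 0 → v₀ (algebraMap k E a) = 1) → (∀ a : k, a ≠ 0 → v₁ (algebraMap k Ω a) = 1) →
    (∀ j, aeval x (p j) ≠ 0) → (∀ j, t j ≠ 0) →
    VInd v₀ (fun j => aeval x (p j)) →
    (∀ ν : Fin r → ℤ, v₀ (∏ j, aeval x (p j) ^ ν j) < 1 → v₁ (∏ j, t j ^ ν j) < 1) →
    A ≠ 0 → B ≠ 0 → v₀ (aeval x A) = v₀ (aeval x B) →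
    ∃ q : Fin r → Ω, (∀ j, aeval q (p j) = t j) ∧ v₁ (aeval q A) = v₁ (aeval q B)

/-- Row PROD: from products to all factors. -/
def StPROD : Prop :=
  ∀ (σ I : Type) (Γ : Type u) [Fintype σ] [LinearOrderedCommGroupWithZero Γ]
    (γ : I → σ → Γ), (∀ i q, γ i q ≠ 0) →
    (∀ (S : Finset I) (c : I → ℕ), S.card ≤ Fintype.card σ → ∃ q, ∏ i ∈ S, γ i q ^ c i = 1) →
    ∃ q, ∀ i, γ i q = 1

/-- Row T (two worlds), to be assembled from the rows above (70). -/
def StT : Prop :=
  ∀ (K₀ K₁ : Type u) [Field K₀] [Field K₁] (r d : ℕ) (I : Type) [Fintype I]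
    (P₀ : I → MvPolynomial (Fin r) K₀) (P₁ : I → MvPolynomial (Fin r) K₁)
    (n : Fin r → I → ℕ),
    (∀ i, P₀ i ≠ 0) → (∀ i, (P₁ i).totalDegree ≤ d) →
    (∀ S : Finset I, S.card ≤ r + (r * d + 1) ^ r →
      ∃ (k : Type u) (_ : Field k) (ι₀ : k →+* K₀) (ι₁ : k →+* K₁)
        (p : I → MvPolynomial (Fin r) k), ∀ i ∈ S, map ι₀ (p i) = P₀ i ∧ map ι₁ (p i) = P₁ i) →
    AlgebraicIndependent K₀ (fun j => ∏ i, P₀ i ^ n j i) →
    AlgebraicIndependent K₁ (fun j => ∏ i, P₁ i ^ n j i)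

/-- Row JAC1: square Jacobian, hard direction (characteristic zero). -/
def StJAC1 : Prop :=
  ∀ (K : Type u) [Field K] [CharZero K] (r : ℕ) (c : Fin r → MvPolynomial (Fin r) K),
    AlgebraicIndependent K c → (Matrix.of fun i a => pderiv a (c i)).det ≠ 0

/-- Row JAC2: easy direction (characteristic zero), a square minor of the Jacobian. -/
def StJAC2 : Prop :=
  ∀ (K : Type u) [Field K] [CharZero K] (r : ℕ) (τ : Type) (c : Fin r → MvPolynomial τ K)
    (κ : Fin r → τ), (Matrix.of fun i a => pderiv (κ a) (c i)).det ≠ 0 → AlgebraicIndependent K c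

/-- Row EXCH: exchange with the coordinates: `c` stays independent over the function field of
the coordinates outside `κ`; in the form: in `r` new variables `ξ` along the coordinates `κ`,
over the field of rational functions of the point `x`. -/
def StEXCH : Prop :=
  ∀ (F : Type u) [Field F] (m r : ℕ) (c : Fin r → MvPolynomial (Fin m) F),
    AlgebraicIndependent F c →
    ∃ κ : Fin r → Fin m, Function.Injective κ ∧
      AlgebraicIndependent (FractionRing (MvPolynomial (Fin m) F)) (fun i =>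
        aeval (R := F) (S₁ := MvPolynomial (Fin r) (FractionRing (MvPolynomial (Fin m) F)))
          (fun k => C (algebraMap (MvPolynomial (Fin m) F) _ (X k)) +
            ∑ a : Fin r, if κ a = k then X a else 0) (c i))

/-- Row I: the generator with `n d` seeds is injective on the algebra of `n` polynomials of
degree at most `d`. -/
def StI : Prop :=
  ∀ (F : Type u) [Field F] [CharZero F] (m n d s : ℕ) (c : Fin n → MvPolynomial (Fin m) F),
    n * d ≤ s → (∀ i, (c i).totalDegree ≤ d) →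
    ∀ H : MvPolynomial (Fin n) F, S3.gen F m s (aeval c H) = 0 → aeval c H = 0

/-- The final number of seeds. -/
def seeds (r d : ℕ) : ℕ := (r + (r * d + 1) ^ r) * (d + 1) ^ r * d + r

/-- Row FAITH: algebraic independence of products is kept by the generator. -/
def StFAITH : Prop :=
  ∀ (F : Type u) [Field F] [CharZero F] (m r d s : ℕ) (I : Type) [Fintype I]
    (P : I → MvPolynomial (Fin m) F) (n : Fin r → I → ℕ),
    seeds r d ≤ s → (∀ i, (P i).totalDegree ≤ d) →
    AlgebraicIndependent F (fun j => ∏ i, P i ^ n j i) →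
    AlgebraicIndependent F (fun j => S3.gen F m s (∏ i, P i ^ n j i))

/-- The final theorem for all `k`: every polynomial in `k` products. -/
def StALL : Prop :=
  ∀ (F : Type u) [Field F] [CharZero F] (m k d s : ℕ) (I : Type) [Fintype I]
    (P : I → MvPolynomial (Fin m) F) (n : Fin k → I → ℕ) (H : MvPolynomial (Fin k) F),
    seeds k d ≤ s → (∀ i, (P i).totalDegree ≤ d) →
    S3.gen F m s (aeval (fun j => ∏ i, P i ^ n j i) H) = 0 →
    aeval (fun j => ∏ i, P i ^ n j i) H = 0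

end Pool.Agent.Lib.MP_64d474_lc.A7
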