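import Mathlib
import Pool.Agent.Lib.MP_64d474_lc.A7.Defs70

set_option autoImplicit false

namespace Pool.Agent.Lib.MP_64d474_lc.A7

open MvPolynomial

universe u

/-- the coefficients in a box -/
noncomputable def boxMap (K : Type*) [Field K] (r M : ℕ) :
    MvPolynomial (Fin r) K →ₗ[K] ((Fin r → Fin (M + 1)) → K) where
  toFun p := fun γ => p.coeff (Finsupp.equivFunOnFinite.symm fun i => (γ i : ℕ))
  map_add' p q := by funext γ; simp
  map_smul' c p := by funext γ; simp

theorem eq_zero_of_boxMap {K : Type*} [Field K] {r M : ℕ} (p : MvPolynomial (Fin r) K)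
    (hp : p.totalDegree ≤ M) (h : boxMap K r M p = 0) : p = 0 := by
  ext c
  rw [coeff_zero]
  by_contra hc
  have hmem : c ∈ p.support := mem_support_iff.2 hc
  have hle : ∀ i, c i < M + 1 := by
    intro i
    have h1 : c i ≤ c.sum fun _ e => e := by
      by_cases hi : i ∈ c.support
      · exact Finset.single_le_sum (f := fun i => c i) (fun _ _ => Nat.zero_le _) hi
      · rw [Finsupp.notMem_support_iff.1 hi]; exact Nat.zero_le _
    exact Nat.lt_succ_of_le (h1.trans ((le_totalDegree hmem).trans hp))
  have h2 := congrFun h (fun i => ⟨c i, hle i⟩)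
  have h3 : (Finsupp.equivFunOnFinite.symm fun i => c i) = c := by
    ext i
    simp
  apply hc
  rw [← h3]
  exact h2

theorem bez9 : StBEZ.{u} := by
  classical
  intro K Ω _ _ _ r d f t hf ht A hA
  -- the evaluations at the points of `A` are independent
  set ev : MvPolynomial (Fin r) K → (A → Ω) := fun h q => aeval q.1 h with hev
  have hspan : Submodule.span Ω (Set.range ev) = ⊤ := by
    by_contra hne
    obtain ⟨φ, hφ0, hφ⟩ := Submodule.exists_le_ker_of_lt_top _ (lt_top_iff_ne_top.2 hne)
    set M : A → (MvPolynomial (Fin r) K →* Ω) := fun q =>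
      ((aeval q.1 : MvPolynomial (Fin r) K →ₐ[K] Ω) : MvPolynomial (Fin r) K →* Ω) with hM
    have hMinj : Function.Injective M := by
      intro q q' h
      apply Subtype.ext
      funext i
      have h1 := congrArg (fun g : MvPolynomial (Fin r) K →* Ω => g (X i)) h
      simpa [hM] using h1
    have hind := (linearIndependent_monoidHom (MvPolynomial (Fin r) K) Ω).comp M hMinj
    rw [Fintype.linearIndependent_iff] at hind
    have h2 := hind (fun q => φ (Pi.single q 1)) (by
      funext h
      have h3 := hφ (Submodule.subset_span ⟨h, rfl⟩)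
      rw [LinearMap.mem_ker] at h3
      have h4 : ev h = ∑ q, (aeval q.1 h : Ω) • (Pi.single q 1 : A → Ω) := by
        funext q'
        simp [hev, Finset.sum_apply, Pi.single_apply]
      rw [h4, map_sum] at h3
      simp only [Finset.sum_apply, Pi.smul_apply, Function.comp_apply, Pi.zero_apply, smul_eq_mul]
      rw [← h3]
      refine Finset.sum_congr rfl fun q _ => ?_
      rw [map_smul, smul_eq_mul, mul_comm]
      rfl)
    apply hφ0
    refine LinearMap.pi_ext' fun q => ?_
    refine LinearMap.ext_ring ?_
    have h5 := h2 q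
    simpa using h5
  obtain ⟨b, hb, hbs, hbi⟩ := exists_linearIndependent Ω (Set.range ev)
  rw [hspan] at hbs
  have : Fintype b := hbi.setFinite.fintype
  have hcard : Fintype.card b = A.card := by
    have h1 := Module.finrank_eq_card_basis
      (Module.Basis.mk hbi (by rw [Subtype.range_coe_subtype]; exact hbs.ge))
    rw [← h1]
    simp
  choose h hh using fun x : b => hb x.2
  -- `∑_x a_x h_x (q) = 0` for all `q` implies `a = 0`
  have hzero : ∀ a : b → Ω, (∀ q : A, ∑ x, a x * aeval q.1 (h x) = 0) → ∀ x, a x = 0 := by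
    intro a ha
    refine (Fintype.linearIndependent_iff.1 hbi) a ?_
    funext q
    rw [Finset.sum_apply, Pi.zero_apply, ← ha q]
    refine Finset.sum_congr rfl fun x _ => ?_
    rw [Pi.smul_apply, smul_eq_mul]
    congr 1
    exact (congrFun (hh x) q).symm
  set D : ℕ := Finset.univ.sup fun x : b => (h x).totalDegree with hD
  set M : ℕ := D + D * (r * d) with hM
  have hdeg : ∀ (x : b) (α : Fin r → Fin (D + 1)),
      (h x * ∏ j, f j ^ (α j : ℕ)).totalDegree ≤ M := by
    intro x α
    refine (totalDegree_mul _ _).trans (add_le_add ?_ ?_)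
    · exact Finset.le_sup (f := fun x : b => (h x).totalDegree) (Finset.mem_univ x)
    · refine (totalDegree_finsetProd _ _).trans ?_
      calc ∑ j, (f j ^ (α j : ℕ)).totalDegree ≤ ∑ _j : Fin r, D * d := by
            refine Finset.sum_le_sum fun j _ => (totalDegree_pow _ _).trans ?_
            exact Nat.mul_le_mul (Nat.lt_succ_iff.1 (α j).2) (hf j)
        _ = D * (r * d) := by
            rw [Finset.sum_const, Finset.card_univ, Fintype.card_fin, smul_eq_mul]
            ring
  have hlin : LinearIndependent K (fun xα : b × (Fin r → Fin (D + 1)) =>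
      boxMap K r M (h xα.1 * ∏ j, f j ^ (xα.2 j : ℕ))) := by
    rw [Fintype.linearIndependent_iff]
    intro g hg
    have h1 : ∑ xα : b × (Fin r → Fin (D + 1)),
        g xα • (h xα.1 * ∏ j, f j ^ (xα.2 j : ℕ)) = 0 := by
      refine eq_zero_of_boxMap (M := M) _ ?_ ?_
      · refine (totalDegree_finsetSum _ _).trans (Finset.sup_le fun xα _ => ?_)
        exact (totalDegree_smul_le _ _).trans (hdeg xα.1 xα.2)
      · rw [map_sum]
        simpa only [map_smul] using hg
    -- evaluate
    have h2 : ∀ x : b, ∑ α : Fin r → Fin (D + 1),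
        algebraMap K Ω (g (x, α)) * ∏ j, t j ^ (α j : ℕ) = 0 := by
      refine hzero _ fun q => ?_
      have h3 := congrArg (aeval q.1 : MvPolynomial (Fin r) K →ₐ[K] Ω) h1
      rw [map_zero, map_sum, Fintype.sum_prod_type] at h3
      rw [← h3]
      refine Finset.sum_congr rfl fun x _ => ?_
      rw [Finset.sum_mul]
      refine Finset.sum_congr rfl fun α _ => ?_
      rw [map_smul, Algebra.smul_def, map_mul, map_prod]
      have h4 : ∏ j, aeval q.1 (f j ^ (α j : ℕ)) = ∏ j, t j ^ (α j : ℕ) := by
        refine Finset.prod_congr rfl fun j _ => ?_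
        rw [map_pow, hA q.1 q.2 j]
      rw [h4]
      ring
    rintro ⟨x, α⟩
    -- independence of `t`
    set P : MvPolynomial (Fin r) K := ∑ α : Fin r → Fin (D + 1),
      monomial (Finsupp.equivFunOnFinite.symm fun i => (α i : ℕ)) (g (x, α)) with hP
    have h5 : aeval t P = 0 := by
      rw [hP, map_sum, ← h2 x]
      refine Finset.sum_congr rfl fun α _ => ?_
      rw [aeval_monomial, Finsupp.prod_fintype _ _ (by simp)]
      rfl
    have h6 : P = 0 := (injective_iff_map_eq_zero _).1 ht P h5
    have h7 := congrArg (fun p => coeff (Finsupp.equivFunOnFinite.symm fun i => (α i : ℕ)) p) h6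
    simp only [hP, coeff_sum, coeff_monomial, coeff_zero] at h7
    rw [Finset.sum_eq_single α] at h7
    · simpa using h7
    · intro β _ hβ
      rw [if_neg]
      intro h8
      apply hβ
      funext i
      apply Fin.ext
      have h9 := congrArg (fun c : Fin r →₀ ℕ => c i) h8
      simpa using h9
    · intro h8
      exact absurd (Finset.mem_univ α) h8
  have hle := hlin.fintype_card_le_finrank
  simp only [Fintype.card_prod, Fintype.card_pi, Fintype.card_fin, Finset.prod_const,
    Finset.card_univ, Module.finrank_pi] at hle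
  rw [hcard] at hle
  have h1 : (M + 1) ^ r ≤ ((r * d + 1) * (D + 1)) ^ r := by
    refine Nat.pow_le_pow_left ?_ r
    rw [hM]
    nlinarith [Nat.zero_le (r * d), Nat.zero_le D]
  rw [mul_pow] at h1
  exact Nat.le_of_mul_le_mul_right (hle.trans h1) (Nat.pow_pos (Nat.succ_pos D))

end Pool.Agent.Lib.MP_64d474_lc.A7
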