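import Mathlib
import Pool.Agent.Lib.MP_64d474_lc.A7.Defs70

set_option autoImplicit false

namespace Pool.Agent.Lib.MP_64d474_lc.A7

universe u

/-- the value as an element of an additive group -/
noncomputable def ad {E Γ : Type*} [Field E] [LinearOrderedCommGroupWithZero Γ]
    (v : Valuation E Γ) (x : Eˣ) : Additive Γˣ :=
  Additive.ofMul (Units.map (v : E →* Γ) x)

theorem ad_sum {E Γ ι : Type*} [Field E] [LinearOrderedCommGroupWithZero Γ] [Fintype ι]
    (v : Valuation E Γ) (x : ι → Eˣ) (ν : ι → ℤ) :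
    ∑ i, ν i • ad v (x i) = ad v (∏ i, x i ^ ν i) := by
  unfold ad
  rw [map_prod, ofMul_prod]
  refine Finset.sum_congr rfl fun i _ => ?_
  rw [map_zpow, ofMul_zpow]

theorem ad_eq_zero {E Γ : Type*} [Field E] [LinearOrderedCommGroupWithZero Γ]
    (v : Valuation E Γ) (x : Eˣ) : ad v x = 0 ↔ v (x : E) = 1 := by
  unfold ad
  rw [ofMul_eq_zero, Units.ext_iff]
  rfl

theorem vind_iff {E Γ ι : Type*} [Field E] [LinearOrderedCommGroupWithZero Γ] [Fintype ι]
    (v : Valuation E Γ) (x : ι → Eˣ) :
    VInd v (fun i => (x i : E)) ↔ LinearIndependent ℤ (fun i => ad v (x i)) := by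
  rw [Fintype.linearIndependent_iff]
  constructor
  · intro h g hg i
    rw [ad_sum, ad_eq_zero] at hg
    have h1 := h g (by rw [← hg]; push_cast; rfl)
    exact congrFun h1 i
  · intro h g hg
    funext i
    refine h g ?_ i
    rw [ad_sum, ad_eq_zero, ← hg]
    push_cast
    rfl

/-- The linear algebra: `r` independent combinations of the `U i`, at most `r` of the `U i`
independent. -/
theorem exists_core {A : Type*} [AddCommGroup A] {I : Type*} [Fintype I] (U : I → A)
    {r : ℕ} (n : Fin r → I → ℕ)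
    (hle : ∀ (l : ℕ) (c : Fin l → I), LinearIndependent ℤ (fun j => U (c j)) → l ≤ r)
    (hT : LinearIndependent ℤ (fun j => ∑ i, n j i • U i)) :
    ∃ c : Fin r → I, LinearIndependent ℤ (fun j => U (c j)) ∧
      ∀ i, ∃ (a : ℕ) (ν : Fin r → ℤ), 0 < a ∧ a • U i = ∑ j, ν j • U (c j) := by
  classical
  -- a maximal independent family
  set Q : ℕ → Prop := fun l => ∃ c : Fin l → I, LinearIndependent ℤ (fun j => U (c j)) with hQ
  have hQ0 : Q 0 := ⟨Fin.elim0, linearIndependent_empty_type⟩
  set l := Nat.findGreatest Q r with hl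
  obtain ⟨c, hc⟩ : Q l := Nat.findGreatest_spec (Nat.zero_le r) hQ0
  have hlr : l ≤ r := Nat.findGreatest_le r
  have hmax : ¬ Q (l + 1) := by
    intro h
    obtain ⟨c', hc'⟩ := h
    have h1 := hle _ c' hc'
    exact Nat.findGreatest_is_greatest (Nat.lt_succ_self l) h1 ⟨c', hc'⟩
  have hspan : ∀ i, ∃ (a : ℕ) (ν : Fin l → ℤ), 0 < a ∧ a • U i = ∑ j, ν j • U (c j) := by
    intro i
    have h1 : ¬ LinearIndependent ℤ (fun j => U ((Fin.cons i c : Fin (l + 1) → I) j)) :=
      fun h => hmax ⟨_, h⟩
    rw [Fintype.not_linearIndependent_iff] at h1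
    obtain ⟨g, hg, k, hk⟩ := h1
    rw [Fin.sum_univ_succ] at hg
    simp only [Fin.cons_zero, Fin.cons_succ] at hg
    have hg0 : g 0 ≠ 0 := by
      intro h0
      rw [h0, zero_smul, zero_add] at hg
      have h2 := (Fintype.linearIndependent_iff.1 hc) (fun j => g j.succ) hg
      refine hk ?_
      refine Fin.cases h0 (fun j => h2 j) k
    rcases lt_or_gt_of_ne hg0 with hneg | hpos
    · refine ⟨(-g 0).toNat, fun j => g j.succ, by omega, ?_⟩
      have h3 : ((-g 0).toNat : ℤ) = -g 0 := Int.toNat_of_nonneg (by omega)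
      rw [← natCast_zsmul, h3, neg_smul]
      exact neg_eq_of_add_eq_zero_right hg
    · refine ⟨(g 0).toNat, fun j => -g j.succ, by omega, ?_⟩
      have h3 : ((g 0).toNat : ℤ) = g 0 := Int.toNat_of_nonneg (by omega)
      rw [← natCast_zsmul, h3]
      simp only [neg_smul, Finset.sum_neg_distrib]
      exact eq_neg_of_add_eq_zero_left hg
  choose a ν ha hν using hspan
  -- `l = r`
  have hrl : r ≤ l := by
    by_contra hlt
    push Not at hlt
    set N : ℕ := ∏ i, a i with hN
    have hNpos : 0 < N := Finset.prod_pos fun i _ => ha i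
    have hNi : ∀ i, N • U i = ∑ j, ((N / a i : ℕ) * ν i j : ℤ) • U (c j) := by
      intro i
      have hdvd : a i ∣ N := Finset.dvd_prod_of_mem a (Finset.mem_univ i)
      have h1 : N = (N / a i) * a i := (Nat.div_mul_cancel hdvd).symm
      conv_lhs => rw [h1, mul_smul, hν i, Finset.smul_sum]
      refine Finset.sum_congr rfl fun j _ => ?_
      rw [← natCast_zsmul, smul_smul]
    set M : Fin r → Fin l → ℤ := fun j k => ∑ i, (n j i : ℤ) * ((N / a i : ℕ) * ν i k : ℤ) with hM
    have hTN : ∀ j, N • (∑ i, n j i • U i) = ∑ k, M j k • U (c k) := by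
      intro j
      rw [Finset.smul_sum]
      simp only [hM, Finset.sum_smul]
      rw [Finset.sum_comm]
      refine Finset.sum_congr rfl fun i _ => ?_
      rw [smul_comm, hNi i, ← natCast_zsmul, Finset.smul_sum]
      refine Finset.sum_congr rfl fun k _ => ?_
      rw [smul_smul]
    have hdep : ¬ LinearIndependent ℤ M := by
      intro h
      have h1 := h.fintype_card_le_finrank
      simp only [Fintype.card_fin, Module.finrank_pi] at h1
      omega
    rw [Fintype.not_linearIndependent_iff] at hdep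
    obtain ⟨g, hg, k, hk⟩ := hdep
    have h2 := (Fintype.linearIndependent_iff.1 hT) (fun j => g j * N) (by
      have h3 : ∀ j, (g j * N : ℤ) • (∑ i, n j i • U i) = ∑ k, (g j * M j k) • U (c k) := by
        intro j
        rw [mul_smul, natCast_zsmul, hTN j, Finset.smul_sum]
        refine Finset.sum_congr rfl fun k _ => ?_
        rw [smul_smul]
      simp only [h3]
      rw [Finset.sum_comm]
      refine Finset.sum_eq_zero fun k _ => ?_
      rw [← Finset.sum_smul]
      have h4 := congrFun hg k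
      simp only [Finset.sum_apply, Pi.smul_apply, smul_eq_mul, Pi.zero_apply] at h4
      rw [h4, zero_smul]) k
    have h5 : (N : ℤ) ≠ 0 := by exact_mod_cast hNpos.ne'
    exact hk ((mul_eq_zero.1 h2).resolve_right h5)
  have hlr' : l = r := le_antisymm hlr hrl
  clear hmax hl hlr hrl
  clear_value l
  subst hlr'
  exact ⟨c, hc, fun i => ⟨a i, ν i, ha i, hν i⟩⟩

theorem core9 (hDOM : StDOM.{u}) : StCORE.{u} := by
  intro K E Γ _ _ _ _ v r I _ P n htr hP hle hV
  classical
  set x : I → Eˣ := fun i => Units.mk0 (P i) (hP i) with hx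
  have hT : LinearIndependent ℤ (fun j => ∑ i, n j i • ad v (x i)) := by
    have h1 := (vind_iff v (fun j => ∏ i, x i ^ n j i)).1 (by
      have h2 : (fun j => ((∏ i, x i ^ n j i : Eˣ) : E)) = fun j => ∏ i, P i ^ n j i := by
        funext j
        push_cast
        rfl
      rw [h2]
      exact hV)
    have h3 : (fun j => ad v (∏ i, x i ^ n j i)) = fun j => ∑ i, n j i • ad v (x i) := by
      funext j
      have h4 := ad_sum v x (fun i => (n j i : ℤ))
      simp only [natCast_zsmul, zpow_natCast] at h4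
      exact h4.symm
    rw [h3] at h1
    exact h1
  obtain ⟨c, hc, hsp⟩ := exists_core (fun i => ad v (x i)) n (by
    intro l c hc
    have h1 := (vind_iff v (fun j => x (c j))).2 hc
    exact hle l _ (hDOM K E Γ v l (fun j => ((x (c j) : Eˣ) : E)) htr
      (fun j => (x (c j)).ne_zero) h1).1) hT
  refine ⟨c, (vind_iff v (fun j => x (c j))).2 hc, fun i => ?_⟩
  obtain ⟨a, ν, ha, h⟩ := hsp i
  refine ⟨a, ν, ha, ?_⟩
  have h1 := ad_sum v (fun j => x (c j)) ν
  rw [← h] at h1
  have h2 : a • ad v (x i) = ad v (x i ^ a) := by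
    unfold ad
    rw [map_pow, ofMul_pow]
  rw [h2] at h1
  unfold ad at h1
  have h3 := congrArg Units.val (Additive.ofMul.injective h1)
  simp only [Units.coe_map, Units.val_pow_eq_pow_val] at h3
  have h4 : ((∏ j, x (c j) ^ ν j : Eˣ) : E) = ∏ j, P (c j) ^ ν j := by
    push_cast
    rfl
  rw [h4] at h3
  exact h3

end Pool.Agent.Lib.MP_64d474_lc.A7
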