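import Pool.Agent.Lib.MP_64d474_lc.A7.Defs70

/-!
# Row DOM: dominant monomials (helper59)
-/

set_option autoImplicit false

namespace Pool.Agent.Lib.MP_64d474_lc.A7

open MvPolynomial

universe u

/-- the values of the monomials of a value-independent family are distinct -/
theorem vind_ne59 {E Γ : Type*} [Field E] [LinearOrderedCommGroupWithZero Γ] (v : Valuation E Γ)
    {r : ℕ} (t : Fin r → E) (ht : ∀ j, t j ≠ 0) (hi : VInd v t) (α β : Fin r →₀ ℕ)
    (h : v (∏ j, t j ^ α j) = v (∏ j, t j ^ β j)) : α = β := by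
  have h1 : v (∏ j, t j ^ ((fun j => (α j : ℤ) - β j : Fin r → ℤ) j)) = 1 := by
    have h2 : (∏ j, t j ^ ((fun j => (α j : ℤ) - β j : Fin r → ℤ) j)) =
        (∏ j, t j ^ α j) / ∏ j, t j ^ β j := by
      rw [← Finset.prod_div_distrib]
      refine Finset.prod_congr rfl fun j _ => ?_
      simp only
      rw [zpow_sub₀ (ht j), zpow_natCast, zpow_natCast]
    rw [h2, map_div₀, h, div_self]
    rw [Valuation.ne_zero_iff]
    exact Finset.prod_ne_zero_iff.2 fun j _ => pow_ne_zero _ (ht j)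
  have h3 := hi _ h1
  ext j
  have := congrFun h3 j
  simp only [Pi.zero_apply] at this
  omega

theorem dom59 : StDOM.{u} := by
  classical
  intro K E Γ _ _ _ _ v r t hv ht hi
  have hv0 : ∀ α : Fin r →₀ ℕ, v (∏ j, t j ^ α j) ≠ 0 := by
    intro α
    rw [Valuation.ne_zero_iff]
    exact Finset.prod_ne_zero_iff.2 fun i _ => pow_ne_zero _ (ht i)
  have key : ∀ h : MvPolynomial (Fin r) K, h ≠ 0 → ∃ ν ∈ h.support,
      v (aeval t h) = v (∏ j, t j ^ ν j) ∧
      ∀ μ ∈ h.support, v (∏ j, t j ^ μ j) ≤ v (∏ j, t j ^ ν j) := by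
    intro p hne
    obtain ⟨α, hα, hmax⟩ := Finset.exists_max_image p.support
      (fun α => v (∏ j, t j ^ α j)) (MvPolynomial.support_nonempty.2 hne)
    refine ⟨α, hα, ?_, hmax⟩
    have hsum : aeval t p = ∑ β ∈ p.support,
        algebraMap K E (p.coeff β) * (∏ j, t j ^ β j) := by
      rw [MvPolynomial.aeval_def, MvPolynomial.eval₂_eq']
    rw [← Finset.add_sum_erase _ _ hα] at hsum
    have hvt : ∀ β ∈ p.support, v (algebraMap K E (p.coeff β) * (∏ j, t j ^ β j)) =
        v (∏ j, t j ^ β j) := by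
      intro β hβ
      rw [map_mul, hv _ (MvPolynomial.mem_support_iff.1 hβ), one_mul]
    have hlt : v (∑ β ∈ p.support.erase α,
        algebraMap K E (p.coeff β) * (∏ j, t j ^ β j)) <
        v (algebraMap K E (p.coeff α) * (∏ j, t j ^ α j)) := by
      rw [hvt α hα]
      refine Valuation.map_sum_lt v (hv0 α) fun β hβ => ?_
      obtain ⟨h1, h2⟩ := Finset.mem_erase.1 hβ
      rw [hvt β h2]
      exact lt_of_le_of_ne (hmax β h2) fun h => h1 (vind_ne59 v t ht hi _ _ h)
    have h3 := Valuation.map_add_eq_of_lt_left v hlt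
    rw [← hsum, hvt α hα] at h3
    exact h3
  refine ⟨?_, key⟩
  rw [algebraicIndependent_iff]
  intro p hp
  by_contra hne
  obtain ⟨ν, _, h, _⟩ := key p hne
  rw [hp, map_zero] at h
  exact hv0 ν h.symm

end Pool.Agent.Lib.MP_64d474_lc.A7
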