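import Pool.Agent.Lib.MP_64d474_lc.A7.Defs70
import Pool.Agent.Lib.MP_64d474_lc.FV.J95

set_option autoImplicit false

/-!
# Row EXCH
-/

namespace Pool.Agent.Lib.MP_64d474_lc.A7

open MvPolynomial

universe u

namespace E95

/-- the translation `x ↦ x + ∑ ξ_a e_(κ a)` with polynomial coefficients -/
noncomputable def phi (F : Type u) [Field F] {m r : ℕ} (κ : Fin r → Fin m) :
    MvPolynomial (Fin m) F →ₐ[F] MvPolynomial (Fin r) (MvPolynomial (Fin m) F) :=
  aeval fun k => C (X k) + ∑ a, if κ a = k then X a else 0

theorem phi_X (F : Type u) [Field F] {m r : ℕ} (κ : Fin r → Fin m) (k : Fin m) :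
    phi F κ (X k) = C (X k) + ∑ a, if κ a = k then X a else 0 := aeval_X _ _

/-- inverse on the coefficients -/
noncomputable def phi' (F : Type u) [Field F] {m r : ℕ} (κ : Fin r → Fin m) :
    MvPolynomial (Fin m) F →ₐ[F] MvPolynomial (Fin r) (MvPolynomial (Fin m) F) :=
  open Classical in aeval fun k => if h : ∃ a, κ a = k then X h.choose else C (X k)

theorem phi'_κ (F : Type u) [Field F] {m r : ℕ} (κ : Fin r → Fin m)
    (hκ : Function.Injective κ) (a : Fin r) : phi' F κ (X (κ a)) = X a := by
  classical
  have h : ∃ b, κ b = κ a := ⟨a, rfl⟩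
  have h1 : phi' F κ (X (κ a)) = if h : ∃ b, κ b = κ a then X h.choose else C (X (κ a)) := by
    unfold phi'
    exact aeval_X _ _
  rw [h1, dif_pos h, hκ h.choose_spec]

theorem phi'_n (F : Type u) [Field F] {m r : ℕ} (κ : Fin r → Fin m) (k : Fin m)
    (hk : ¬ ∃ a, κ a = k) : phi' F κ (X k) = C (X k) := by
  classical
  have h1 : phi' F κ (X k) = if h : ∃ b, κ b = k then X h.choose else C (X k) := by
    unfold phi'
    exact aeval_X _ _
  rw [h1, dif_neg hk]

theorem hsum (F : Type u) [Field F] {m r : ℕ} (κ : Fin r → Fin m)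
    (hκ : Function.Injective κ) (k : Fin m) :
    (∑ a, if κ a = k then (X a : MvPolynomial (Fin r) (MvPolynomial (Fin m) F)) else 0) =
      (open Classical in if h : ∃ a, κ a = k then X h.choose else 0) := by
  classical
  by_cases h : ∃ a, κ a = k
  · rw [dif_pos h, Finset.sum_eq_single h.choose]
    · rw [if_pos h.choose_spec]
    · intro b _ hb
      rw [if_neg]
      intro h1
      exact hb (hκ (h1.trans h.choose_spec.symm))
    · simp
  · rw [dif_neg h]
    apply Finset.sum_eq_zero
    intro a _
    rw [if_neg]
    exact fun h1 => h ⟨a, h1⟩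

/-- the automorphism -/
noncomputable def Th (F : Type u) [Field F] {m r : ℕ} (κ : Fin r → Fin m) :
    MvPolynomial (Fin r) (MvPolynomial (Fin m) F) →ₐ[F]
      MvPolynomial (Fin r) (MvPolynomial (Fin m) F) :=
  aevalTower (phi F κ) (fun a => C (X (κ a)))

theorem Th_C (F : Type u) [Field F] {m r : ℕ} (κ : Fin r → Fin m) (q : MvPolynomial (Fin m) F) :
    Th F κ (C q) = phi F κ q := aevalTower_C _ _ _

theorem Th_X (F : Type u) [Field F] {m r : ℕ} (κ : Fin r → Fin m) (a : Fin r) :
    Th F κ (X a) = C (X (κ a)) := aevalTower_X _ _ _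

/-- its left inverse -/
noncomputable def Ps (F : Type u) [Field F] {m r : ℕ} (κ : Fin r → Fin m) :
    MvPolynomial (Fin r) (MvPolynomial (Fin m) F) →ₐ[F]
      MvPolynomial (Fin r) (MvPolynomial (Fin m) F) :=
  aevalTower (phi' F κ) (fun a => C (X (κ a)) - X a)

theorem Ps_C (F : Type u) [Field F] {m r : ℕ} (κ : Fin r → Fin m) (q : MvPolynomial (Fin m) F) :
    Ps F κ (C q) = phi' F κ q := aevalTower_C _ _ _

theorem Ps_X (F : Type u) [Field F] {m r : ℕ} (κ : Fin r → Fin m) (a : Fin r) :
    Ps F κ (X a) = C (X (κ a)) - X a := aevalTower_X _ _ _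

theorem Ps_Th (F : Type u) [Field F] {m r : ℕ} (κ : Fin r → Fin m)
    (hκ : Function.Injective κ) (p : MvPolynomial (Fin r) (MvPolynomial (Fin m) F)) :
    Ps F κ (Th F κ p) = p := by
  classical
  have h : (Ps F κ).comp (Th F κ) = AlgHom.id F _ := by
    apply MvPolynomial.algHom_ext'
    · apply MvPolynomial.algHom_ext
      intro k
      change Ps F κ (Th F κ (C (X k))) = C (X k)
      rw [Th_C, phi_X, hsum F κ hκ, map_add, Ps_C]
      by_cases h : ∃ a, κ a = k
      · obtain ⟨a, rfl⟩ := h
        have h' : ∃ b, κ b = κ a := ⟨a, rfl⟩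
        rw [dif_pos h', hκ h'.choose_spec, phi'_κ F κ hκ, Ps_X]
        ring
      · rw [dif_neg h, map_zero, phi'_n F κ k h, add_zero]
    · intro a
      change Ps F κ (Th F κ (X a)) = X a
      rw [Th_X, Ps_C, phi'_κ F κ hκ]
  exact DFunLike.congr_fun h p

theorem indep_over {F : Type u} [Field F] {m r : ℕ} (κ : Fin r → Fin m)
    (hκ : Function.Injective κ) (c : Fin r → MvPolynomial (Fin m) F)
    (hc : AlgebraicIndependent F (Sum.elim c (fun i : {i // i ∉ Set.range κ} =>
        (X (i : Fin m) : MvPolynomial (Fin m) F)))) :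
    AlgebraicIndependent F (Sum.elim (fun i => phi F κ (c i))
      (fun k : Fin m => (C (X k) : MvPolynomial (Fin r) (MvPolynomial (Fin m) F)))) := by
  classical
  have hΘ : Function.Injective (Th F κ) := Function.LeftInverse.injective (Ps_Th F κ hκ)
  have h1 : AlgebraicIndependent F (Sum.elim
      (X : Fin r → MvPolynomial (Fin r) (MvPolynomial (Fin m) F))
      (algebraMap (MvPolynomial (Fin m) F) (MvPolynomial (Fin r) (MvPolynomial (Fin m) F)) ∘
        Sum.elim c (fun i : {i // i ∉ Set.range κ} =>
          (X (i : Fin m) : MvPolynomial (Fin m) F)))) :=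
    AlgebraicIndependent.sumElim_comp hc (algebraicIndependent_X (Fin r) (MvPolynomial (Fin m) F))
  have h2 := h1.map' hΘ
  let τ : Fin r ⊕ Fin m → Fin r ⊕ (Fin r ⊕ {i // i ∉ Set.range κ}) := fun s =>
    match s with
    | Sum.inl j => Sum.inr (Sum.inl j)
    | Sum.inr k => if h : k ∈ Set.range κ then Sum.inl h.choose else Sum.inr (Sum.inr ⟨k, h⟩)
  have hτ : Function.Injective τ := by
    intro s t hst
    rcases s with j | k <;> rcases t with j' | k'
    · simpa [τ] using hst
    · exfalso
      simp only [τ] at hst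
      split_ifs at hst
      simp at hst
    · exfalso
      simp only [τ] at hst
      split_ifs at hst
      simp at hst
    · simp only [τ] at hst
      by_cases h : k ∈ Set.range κ <;> by_cases h' : k' ∈ Set.range κ
      · rw [dif_pos h, dif_pos h'] at hst
        have h3 := Sum.inl_injective hst
        have h4 := h.choose_spec
        have h5 := h'.choose_spec
        rw [← h4, ← h5, h3]
      · rw [dif_pos h, dif_neg h'] at hst
        simp at hst
      · rw [dif_neg h, dif_pos h'] at hst
        simp at hst
      · rw [dif_neg h, dif_neg h'] at hst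
        simpa using hst
  have h3 := h2.comp τ hτ
  convert h3 using 1
  funext s
  rcases s with j | k
  · change phi F κ (c j) = Th F κ (C (c j))
    rw [Th_C]
  · simp only [Sum.elim_inr, Function.comp_apply, τ]
    by_cases h : k ∈ Set.range κ
    · rw [dif_pos h, Sum.elim_inl, Th_X]
      rw [h.choose_spec]
    · rw [dif_neg h, Sum.elim_inr]
      change _ = Th F κ (C (X k))
      rw [Th_C, phi_X, hsum F κ hκ, dif_neg, add_zero]
      exact h

end E95

/-- Row EXCH. -/
theorem exch95 : StEXCH.{u} := by
  intro F _ m r c hc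
  classical
  obtain ⟨I, hI, hb⟩ := FV.J95.complete (X : Fin m → MvPolynomial (Fin m) F)
    (IsTranscendenceBasis.mvPolynomial (Fin m) F) c hc
  let e : Fin r ≃ I := (Finset.equivFinOfCardEq hI).symm
  let κ : Fin r → Fin m := fun a => (e a : Fin m)
  have hκ : Function.Injective κ := Subtype.val_injective.comp e.injective
  have hrange : ∀ i, i ∉ Set.range κ ↔ i ∉ I := by
    intro i
    apply not_congr
    constructor
    · rintro ⟨a, rfl⟩
      exact (e a).2
    · intro h
      exact ⟨e.symm ⟨i, h⟩, by simp [κ]⟩
  refine ⟨κ, hκ, ?_⟩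
  have hc' : AlgebraicIndependent F (Sum.elim c (fun i : {i // i ∉ Set.range κ} =>
        (X (i : Fin m) : MvPolynomial (Fin m) F))) := by
    have h := hb.1.comp (Sum.map id (fun i : {i // i ∉ Set.range κ} =>
      (⟨i, (hrange i).1 i.2⟩ : {i // i ∉ I}))) (by
        apply Function.Injective.sumMap Function.injective_id
        intro a b hab
        exact Subtype.ext (congrArg (fun z : {i // i ∉ I} => (z : Fin m)) hab))
    convert h using 1
    funext s
    rcases s with j | i <;> rfl
  have h4 := E95.indep_over κ hκ c hc'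
  let P := MvPolynomial (Fin m) F
  let K := FractionRing P
  let Q := MvPolynomial (Fin r) K
  let M : MvPolynomial (Fin r) P →ₐ[F] Q := mapAlgHom (IsScalarTower.toAlgHom F P K)
  have hM : Function.Injective M := map_injective _ (IsFractionRing.injective P K)
  have hMC : ∀ q : P, M (C q) = C (algebraMap P K q) := fun q => map_C _ _
  have hMX : ∀ a : Fin r, M (X a) = X a := fun a => map_X _ _
  have h5 := h4.map' hM
  let g : Fin r → Q := fun i =>
        aeval (R := F) (S₁ := MvPolynomial (Fin r) (FractionRing (MvPolynomial (Fin m) F)))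
          (fun k => C (algebraMap (MvPolynomial (Fin m) F) _ (X k)) +
            ∑ a : Fin r, if κ a = k then X a else 0) (c i)
  have hg : ∀ i, M (E95.phi F κ (c i)) = g i := by
    intro i
    have h : M.comp (E95.phi F κ) = aeval (R := F)
        (S₁ := MvPolynomial (Fin r) (FractionRing (MvPolynomial (Fin m) F)))
          (fun k => C (algebraMap (MvPolynomial (Fin m) F) _ (X k)) +
            ∑ a : Fin r, if κ a = k then X a else 0) := by
      apply MvPolynomial.algHom_ext
      intro k
      simp only [AlgHom.comp_apply, E95.phi, aeval_X, map_add, map_sum]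
      rw [hMC]
      congr 1
      apply Finset.sum_congr rfl
      intro a _
      split_ifs
      · exact hMX a
      · exact map_zero M
    exact DFunLike.congr_fun h (c i)
  -- independence over `P`
  have h6 : AlgebraicIndependent P g := by
    rw [algebraicIndependent_iff]
    intro p hp
    let S := (sumAlgEquiv F (Fin r) (Fin m))
    have h7 : aeval (M ∘ Sum.elim (fun i => E95.phi F κ (c i))
      (fun k : Fin m => (C (X k) : MvPolynomial (Fin r) (MvPolynomial (Fin m) F))))
        = ((aeval g : MvPolynomial (Fin r) P →ₐ[P] Q).restrictScalars F).comp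
          (S : MvPolynomial (Fin r ⊕ Fin m) F →ₐ[F] MvPolynomial (Fin r) P) := by
      apply MvPolynomial.algHom_ext
      intro s
      rcases s with i | k
      · simp only [aeval_X, Function.comp_apply, Sum.elim_inl, AlgHom.comp_apply]
        change M _ = aeval g (S (X (Sum.inl i)))
        rw [show S (X (Sum.inl i)) = X i from sumAlgEquiv_X_inl F (Fin r) (Fin m) i, aeval_X]
        exact hg i
      · simp only [aeval_X, Function.comp_apply, Sum.elim_inr, AlgHom.comp_apply]
        change M _ = aeval g (S (X (Sum.inr k)))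
        rw [show S (X (Sum.inr k)) = C (X k) from sumAlgEquiv_X_inr F (Fin r) (Fin m) k]
        rw [show (C (X k) : MvPolynomial (Fin r) P) = algebraMap P _ (X k) from rfl,
          AlgHom.commutes]
        exact hMC (X k)
    have h8 : aeval (M ∘ Sum.elim (fun i => E95.phi F κ (c i))
      (fun k : Fin m => (C (X k) : MvPolynomial (Fin r) (MvPolynomial (Fin m) F)))) (S.symm p)
        = 0 := by
      rw [h7]
      change aeval g (S (S.symm p)) = 0
      rw [AlgEquiv.apply_symm_apply]
      exact hp
    have h9 := h5.eq_zero_of_aeval_eq_zero _ h8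
    have h10 := congrArg S h9
    rwa [AlgEquiv.apply_symm_apply, map_zero] at h10
  have hal : Algebra.IsAlgebraic P K := IsLocalization.isAlgebraic (R := P) _ (nonZeroDivisors P)
  exact h6.extendScalars K

end Pool.Agent.Lib.MP_64d474_lc.A7
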