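import Pool.Agent.Lib.MP_64d474_lc.A7.Hlp70

set_option autoImplicit false

/-!
# Row FAITH from the rows T, I and the exchange
-/

namespace Pool.Agent.Lib.MP_64d474_lc.A7

open MvPolynomial

universe u v w

/-- the coordinates `κ a` become the new variables, the others the constants `y k` -/
noncomputable def subk (F : Type u) [Field F] {m r : ℕ} (κ : Fin r → Fin m) {R : Type v}
    [CommRing R] [Algebra F R] (y : Fin m → R) :
    MvPolynomial (Fin m) F →ₐ[F] MvPolynomial (Fin r) R :=
  aeval fun k => open Classical in if h : ∃ a, κ a = k then X h.choose else C (y k)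

/-- Row EXCH2 (used instead of EXCH) -/
def StEXCH2 : Prop :=
  ∀ (F : Type u) [Field F] (m r : ℕ) (c : Fin r → MvPolynomial (Fin m) F),
    AlgebraicIndependent F c →
    ∃ κ : Fin r → Fin m, Function.Injective κ ∧
      AlgebraicIndependent (FractionRing (MvPolynomial (Fin m) F)) (fun i =>
        subk F κ (fun k => algebraMap (MvPolynomial (Fin m) F)
          (FractionRing (MvPolynomial (Fin m) F)) (X k)) (c i))

/-- degree at most `a`, coefficients of degree at most `b` -/
def Bdd {F : Type u} [Field F] {m r : ℕ} (a b : ℕ)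
    (f : MvPolynomial (Fin r) (MvPolynomial (Fin m) F)) : Prop :=
  f.totalDegree ≤ a ∧ ∀ β, (f.coeff β).totalDegree ≤ b

section Bdd

variable {F : Type u} [Field F] {m r : ℕ}

theorem tsum_le {R τ σ : Type*} [CommSemiring R] (s : Finset τ) (f : τ → MvPolynomial σ R)
    {d : ℕ} (h : ∀ i ∈ s, (f i).totalDegree ≤ d) : (∑ i ∈ s, f i).totalDegree ≤ d :=
  (totalDegree_finsetSum s f).trans (Finset.sup_le h)

theorem Bdd.mul {a b a' b' : ℕ} {f g : MvPolynomial (Fin r) (MvPolynomial (Fin m) F)}
    (hf : Bdd a b f) (hg : Bdd a' b' g) : Bdd (a + a') (b + b') (f * g) := by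
  classical
  refine ⟨(totalDegree_mul _ _).trans (add_le_add hf.1 hg.1), fun β => ?_⟩
  rw [coeff_mul]
  refine tsum_le _ _ fun x _ => ?_
  exact (totalDegree_mul _ _).trans (add_le_add (hf.2 _) (hg.2 _))

theorem Bdd.mono {a b a' b' : ℕ} {f : MvPolynomial (Fin r) (MvPolynomial (Fin m) F)}
    (hf : Bdd a b f) (ha : a ≤ a') (hb : b ≤ b') : Bdd a' b' f :=
  ⟨hf.1.trans ha, fun β => (hf.2 β).trans hb⟩

theorem Bdd.C' (p : MvPolynomial (Fin m) F) {b : ℕ} (h : p.totalDegree ≤ b) :
    Bdd (r := r) 0 b (C p) := by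
  classical
  refine ⟨by simp, fun β => ?_⟩
  rw [coeff_C]
  split_ifs
  · exact h
  · simp

theorem Bdd.X' (a : Fin r) : Bdd (F := F) (m := m) 1 0 (X a) := by
  classical
  refine ⟨(totalDegree_X _).le, fun β => ?_⟩
  rw [coeff_X]
  split_ifs <;> simp

theorem Bdd.pow {a b : ℕ} {f : MvPolynomial (Fin r) (MvPolynomial (Fin m) F)}
    (hf : Bdd a b f) (n : ℕ) : Bdd (n * a) (n * b) (f ^ n) := by
  induction n with
  | zero => simpa using Bdd.C' (r := r) (1 : MvPolynomial (Fin m) F) (b := 0) (by simp)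
  | succ n ih =>
    rw [pow_succ, Nat.succ_mul, Nat.succ_mul]
    exact ih.mul hf

theorem Bdd.prod {τ : Type*} (s : Finset τ) (a b : τ → ℕ)
    (f : τ → MvPolynomial (Fin r) (MvPolynomial (Fin m) F)) (h : ∀ i ∈ s, Bdd (a i) (b i) (f i)) :
    Bdd (∑ i ∈ s, a i) (∑ i ∈ s, b i) (∏ i ∈ s, f i) := by
  classical
  induction s using Finset.induction_on with
  | empty => simpa using Bdd.C' (r := r) (1 : MvPolynomial (Fin m) F) (b := 0) (by simp)
  | insert i s hi ih =>
    rw [Finset.sum_insert hi, Finset.sum_insert hi, Finset.prod_insert hi]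
    exact (h i (Finset.mem_insert_self _ _)).mul
      (ih fun j hj => h j (Finset.mem_insert_of_mem hj))

theorem Bdd.sum {τ : Type*} (s : Finset τ) {a b : ℕ}
    (f : τ → MvPolynomial (Fin r) (MvPolynomial (Fin m) F)) (h : ∀ i ∈ s, Bdd a b (f i)) :
    Bdd a b (∑ i ∈ s, f i) := by
  refine ⟨tsum_le _ _ fun i hi => (h i hi).1, fun β => ?_⟩
  rw [coeff_sum]
  exact tsum_le _ _ fun i hi => (h i hi).2 β

theorem bdd_subk (κ : Fin r → Fin m) (P : MvPolynomial (Fin m) F) {d : ℕ}
    (hP : P.totalDegree ≤ d) : Bdd d d (subk F κ (X : Fin m → MvPolynomial (Fin m) F) P) := by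
  classical
  rw [subk, aeval_def, eval₂_eq']
  refine Bdd.sum _ _ fun μ hμ => ?_
  have h1 : ∑ i, μ i ≤ d := by
    have := le_totalDegree hμ
    rw [Finsupp.sum_fintype _ _ fun _ => rfl] at this
    exact this.trans hP
  have h2 : Bdd (r := r) 0 0 (algebraMap F (MvPolynomial (Fin r) (MvPolynomial (Fin m) F))
      (P.coeff μ)) := by
    have : algebraMap F (MvPolynomial (Fin r) (MvPolynomial (Fin m) F)) (P.coeff μ) =
        C (C (P.coeff μ)) := rfl
    rw [this]
    exact Bdd.C' _ (by simp)
  have h3 := Bdd.prod Finset.univ (fun i => μ i * 1) (fun i => μ i * 1)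
    (fun i => (if h : ∃ a, κ a = i then X h.choose else C (X i) :
      MvPolynomial (Fin r) (MvPolynomial (Fin m) F)) ^ μ i) (fun i _ => by
        refine Bdd.pow ?_ _
        split_ifs with h
        · exact (Bdd.X' _).mono le_rfl (Nat.zero_le _)
        · exact (Bdd.C' _ (totalDegree_X _).le).mono (Nat.zero_le _) le_rfl)
  have h4 := h2.mul h3
  refine h4.mono ?_ ?_ <;> simpa using h1

end Bdd

theorem map_subk {F : Type u} [Field F] {m r : ℕ} (κ : Fin r → Fin m) {R S : Type*}
    [CommRing R] [Algebra F R] [CommRing S] [Algebra F S] (g : R →ₐ[F] S) (y : Fin m → R)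
    (P : MvPolynomial (Fin m) F) :
    map (g : R →+* S) (subk F κ y P) = subk F κ (fun k => g (y k)) P := by
  have : ((mapAlgHom g).comp (subk F κ y)) = subk F κ (fun k => g (y k)) := by
    ext k
    simp only [subk, AlgHom.comp_apply, aeval_X]
    split_ifs with h <;> simp
  exact DFunLike.congr_fun this P

theorem subk_eq_zero {F : Type u} [Field F] {m r : ℕ} (κ : Fin r → Fin m)
    (P : MvPolynomial (Fin m) F)
    (h : subk F κ (X : Fin m → MvPolynomial (Fin m) F) P = 0) : P = 0 := by
  classical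
  -- put the variables back
  let ev : MvPolynomial (Fin r) (MvPolynomial (Fin m) F) →ₐ[F] MvPolynomial (Fin m) F :=
    (aeval (R := MvPolynomial (Fin m) F) fun a => (X (κ a) : MvPolynomial (Fin m) F)).restrictScalars F
  have : (ev.comp (subk F κ (X : Fin m → MvPolynomial (Fin m) F))) = AlgHom.id F _ := by
    ext1 k
    simp only [subk, AlgHom.comp_apply, aeval_X, AlgHom.id_apply]
    split_ifs with h
    · change aeval _ (X _) = _
      rw [aeval_X, h.choose_spec]
    · change aeval _ (C _) = _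
      rw [aeval_C]
      rfl
  have h2 := DFunLike.congr_fun this P
  rw [AlgHom.comp_apply, h, map_zero] at h2
  exact h2.symm

/-- common field from a subring on which both maps are injective -/
theorem common_of_subring {A : Type u} [CommRing A] [IsDomain A] {r : ℕ} {I : Type}
    (Q : I → MvPolynomial (Fin r) A) (S : Finset I) (B : Subring A)
    (hcoeff : ∀ i ∈ S, ∀ β, (Q i).coeff β ∈ B)
    {K₀ K₁ : Type u} [Field K₀] [Field K₁] (f : A →+* K₀) (g : A →+* K₁)
    (h0 : Function.Injective (f.comp B.subtype)) (h1 : Function.Injective (g.comp B.subtype)) :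
    ∃ (k : Type u) (_ : Field k) (ι₀ : k →+* K₀) (ι₁ : k →+* K₁)
      (p : I → MvPolynomial (Fin r) k), ∀ i ∈ S, map ι₀ (p i) = map f (Q i) ∧
        map ι₁ (p i) = map g (Q i) := by
  classical
  have hlift : ∀ i ∈ S, ∃ q : MvPolynomial (Fin r) B, map B.subtype q = Q i := by
    intro i hi
    refine ⟨∑ β ∈ (Q i).support, monomial β (⟨(Q i).coeff β, hcoeff i hi β⟩ : B), ?_⟩
    rw [map_sum]
    conv_rhs => rw [← support_sum_monomial_coeff (Q i)]
    refine Finset.sum_congr rfl fun β _ => ?_
    rw [map_monomial]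
    rfl
  let q : I → MvPolynomial (Fin r) B := fun i =>
    if hi : i ∈ S then (hlift i hi).choose else 0
  have hq : ∀ i ∈ S, map B.subtype (q i) = Q i := by
    intro i hi
    simp only [q, dif_pos hi]
    exact (hlift i hi).choose_spec
  refine ⟨FractionRing B, inferInstance, IsFractionRing.lift h0, IsFractionRing.lift h1,
    fun i => map (algebraMap B (FractionRing B)) (q i), fun i hi => ⟨?_, ?_⟩⟩
  · have h2 : (IsFractionRing.lift h0 : FractionRing B →+* K₀).comp
        (algebraMap B (FractionRing B)) = f.comp B.subtype := by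
      ext b
      exact IsFractionRing.lift_algebraMap h0 b
    rw [map_map, h2, ← map_map, hq i hi]
  · have h2 : (IsFractionRing.lift h1 : FractionRing B →+* K₁).comp
        (algebraMap B (FractionRing B)) = g.comp B.subtype := by
      ext b
      exact IsFractionRing.lift_algebraMap h1 b
    rw [map_map, h2, ← map_map, hq i hi]

/-- the coefficients of boundedly many polynomials of low degree -/
theorem exists_coeffs {F : Type u} [Field F] {m r d : ℕ}
    {I : Type} (Q : I → MvPolynomial (Fin r) (MvPolynomial (Fin m) F))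
    (hQ : ∀ i, Bdd d d (Q i)) (S : Finset I) :
    ∃ (n : ℕ) (_ : n = S.card * (d + 1) ^ r) (c : Fin n → MvPolynomial (Fin m) F),
      (∀ i, (c i).totalDegree ≤ d) ∧
      ∀ i ∈ S, ∀ β, (Q i).coeff β = 0 ∨ ∃ l, (Q i).coeff β = c l := by
  classical
  have hcard : Fintype.card (S × (Fin r → Fin (d + 1))) = S.card * (d + 1) ^ r := by
    simp [Fintype.card_prod]
  obtain ⟨e⟩ : Nonempty (S × (Fin r → Fin (d + 1)) ≃ Fin (S.card * (d + 1) ^ r)) :=
    ⟨Fintype.equivFinOfCardEq hcard⟩
  refine ⟨S.card * (d + 1) ^ r, rfl, fun l => (Q (e.symm l).1).coeff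
    (Finsupp.equivFunOnFinite.symm fun a => ((e.symm l).2 a : ℕ)), fun l => (hQ _).2 _, ?_⟩
  intro i hi β
  by_cases hβ : ∀ a, β a < d + 1
  · right
    refine ⟨e ⟨⟨i, hi⟩, fun a => ⟨β a, hβ a⟩⟩, ?_⟩
    simp only [Equiv.symm_apply_apply]
    congr 1
    ext a
    rfl
  · left
    push Not at hβ
    obtain ⟨a, ha⟩ := hβ
    rw [← notMem_support_iff]
    intro hm
    have h2 := (le_totalDegree hm).trans (hQ i).1
    rw [Finsupp.sum_fintype _ _ fun _ => rfl] at h2
    have h3 := Finset.single_le_sum (f := fun a => β a) (fun _ _ => Nat.zero_le _)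
      (Finset.mem_univ a)
    omega

/-- A common field for boundedly many polynomials with low degree coefficients. -/
theorem exists_common {F : Type u} [Field F] [CharZero F] (hI : StI.{u}) {m r d s : ℕ}
    {I : Type} (Q : I → MvPolynomial (Fin r) (MvPolynomial (Fin m) F))
    (hQ : ∀ i, Bdd d d (Q i)) (S : Finset I) (hS : S.card * (d + 1) ^ r * d ≤ s)
    {K₀ K₁ : Type u} [Field K₀] [Field K₁] (f : MvPolynomial (Fin m) F →+* K₀)
    (hf : Function.Injective f) (g : MvPolynomial (Fin m) F →+* K₁)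
    (hg : ∀ b, g b = 0 → S3.gen F m s b = 0) :
    ∃ (k : Type u) (_ : Field k) (ι₀ : k →+* K₀) (ι₁ : k →+* K₁)
      (p : I → MvPolynomial (Fin r) k), ∀ i ∈ S, map ι₀ (p i) = map f (Q i) ∧
        map ι₁ (p i) = map g (Q i) := by
  classical
  obtain ⟨n, hn, c, hcd, hc⟩ := exists_coeffs Q hQ S
  rw [← hn] at hS
  clear hn
  have hinj : ∀ b ∈ ((aeval c : MvPolynomial (Fin n) F →ₐ[F] MvPolynomial (Fin m) F) :
      MvPolynomial (Fin n) F →+* MvPolynomial (Fin m) F).range,
      S3.gen F m s b = 0 → b = 0 := by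
    rintro b ⟨H, rfl⟩ hb
    exact hI F m n d s c hS hcd H hb
  generalize hB : ((aeval c : MvPolynomial (Fin n) F →ₐ[F] MvPolynomial (Fin m) F) :
      MvPolynomial (Fin n) F →+* MvPolynomial (Fin m) F).range = B at hinj
  refine common_of_subring Q S B ?_ f g ?_ ?_
  · intro i hi β
    rcases hc i hi β with h | ⟨l, h⟩
    · rw [h]
      exact zero_mem _
    · rw [h, ← hB]
      exact ⟨X l, aeval_X _ _⟩
  · exact hf.comp Subtype.val_injective
  · rw [injective_iff_map_eq_zero]
    intro b hb
    apply Subtype.ext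
    exact hinj b b.2 (hg _ hb)

end Pool.Agent.Lib.MP_64d474_lc.A7
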