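import Pool.Agent.Lib.MP_64d474_lc.A7.Faith70

set_option autoImplicit false

/-!
# Row FAITH from the rows T, I and EXCH2: assembly
-/

namespace Pool.Agent.Lib.MP_64d474_lc.A7

open MvPolynomial

universe u v w

section Lam

variable (F : Type u) [Field F] {m r s : ℕ} {K : Type u} [Field K] [Algebra F K]

/-- the node constant -/
noncomputable def nodeC (K : Type u) [Field K] {m : ℕ} (k : Fin m) : K :=
  ∏ j ∈ Finset.univ.erase k, (((k : ℕ) : K) - ((j : ℕ) : K))

theorem nodeC_ne_zero {K : Type u} [Field K] [CharZero K] {m : ℕ} (k : Fin m) :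
    nodeC K k ≠ 0 := by
  refine Finset.prod_ne_zero_iff.2 fun j hj => ?_
  rw [sub_ne_zero]
  intro h
  have h1 : (k : ℕ) = (j : ℕ) := Nat.cast_injective h
  exact (Finset.mem_erase.1 hj).1 (Fin.ext h1.symm)

/-- specialization of the last `r` seeds -/
noncomputable def lam (κ : Fin r → Fin m) (g : MvPolynomial (Fin s ⊕ Fin s) F →ₐ[F] K) :
    MvPolynomial (Fin (s + r) ⊕ Fin (s + r)) F →ₐ[F] MvPolynomial (Fin r) K :=
  aeval (Sum.elim
    (Fin.addCases (fun i => C (g (X (Sum.inl i)))) (fun a => C ((κ a : ℕ) : K)))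
    (Fin.addCases (fun i => C (g (X (Sum.inr i))))
      (fun a => C (nodeC K (κ a))⁻¹ * (X a - C (g (S3.genX F m s (κ a)))))))

theorem lam_genX [CharZero K] (κ : Fin r → Fin m) (hκ : Function.Injective κ)
    (g : MvPolynomial (Fin s ⊕ Fin s) F →ₐ[F] K) (k : Fin m) :
    lam F κ g (S3.genX F m (s + r) k) =
      open Classical in if h : ∃ a, κ a = k then X h.choose else C (g (S3.genX F m s k)) := by
  classical
  have hCF : ∀ a : F, lam F κ g (C a) = C (algebraMap F K a) := by
    intro a
    rw [lam, aeval_C]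
    rfl
  have h0 : C (σ := Fin r) (g (S3.genX F m s k)) = ∑ i : Fin s,
      C (g (X (Sum.inr i))) * ∏ j ∈ Finset.univ.erase k,
        (C (g (X (Sum.inl i))) - C ((j : ℕ) : K)) := by
    rw [S3.genX, map_sum, map_sum]
    refine Finset.sum_congr rfl fun i _ => ?_
    rw [map_mul, map_mul, map_prod, map_prod]
    congr 1
    refine Finset.prod_congr rfl fun j _ => ?_
    rw [map_sub, map_sub]
    congr 2
    have : (C ((j : ℕ) : F) : MvPolynomial (Fin s ⊕ Fin s) F) = ((j : ℕ) : MvPolynomial _ F) := by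
      simp
    rw [this, map_natCast]
  have h1 : lam F κ g (S3.genX F m (s + r) k) = C (g (S3.genX F m s k)) +
      ∑ a : Fin r, (C (nodeC K (κ a))⁻¹ * (X a - C (g (S3.genX F m s (κ a))))) *
        ∏ j ∈ Finset.univ.erase k, (C ((κ a : ℕ) : K) - C ((j : ℕ) : K)) := by
    rw [h0, S3.genX, map_sum, Fin.sum_univ_add]
    congr 1
    · refine Finset.sum_congr rfl fun i _ => ?_
      rw [map_mul, map_prod]
      congr 1
      · simp [lam]
      · refine Finset.prod_congr rfl fun j _ => ?_
        rw [map_sub, hCF]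
        simp [lam]
    · refine Finset.sum_congr rfl fun a _ => ?_
      rw [map_mul, map_prod]
      congr 1
      · simp [lam]
      · refine Finset.prod_congr rfl fun j _ => ?_
        rw [map_sub, hCF]
        simp [lam]
  have h2 : ∀ a : Fin r, (∏ j ∈ Finset.univ.erase k, (C ((κ a : ℕ) : K) - C ((j : ℕ) : K)) :
      MvPolynomial (Fin r) K) = if κ a = k then C (nodeC K (κ a)) else 0 := by
    intro a
    split_ifs with h
    · rw [nodeC, map_prod, h]
      exact Finset.prod_congr rfl fun j _ => by rw [map_sub]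
    · apply Finset.prod_eq_zero (Finset.mem_erase.2 ⟨h, Finset.mem_univ _⟩)
      rw [sub_self]
  rw [h1]
  simp only [h2]
  split_ifs with h
  · obtain ⟨a, ha⟩ := id h
    have hch : h.choose = a := hκ (h.choose_spec.trans ha.symm)
    rw [Finset.sum_eq_single a]
    · rw [if_pos ha, hch, mul_right_comm, ← C_mul, inv_mul_cancel₀ (nodeC_ne_zero _), C_1,
        one_mul, ha]
      ring
    · intro b _ hb
      rw [if_neg, mul_zero]
      intro h3
      exact hb (hκ (h3.trans ha.symm))
    · intro h3
      exact absurd (Finset.mem_univ a) h3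
  · rw [Finset.sum_eq_zero, add_zero]
    intro a _
    rw [if_neg, mul_zero]
    intro h3
    exact h ⟨a, h3⟩

theorem lam_gen [CharZero K] (κ : Fin r → Fin m) (hκ : Function.Injective κ)
    (g : MvPolynomial (Fin s ⊕ Fin s) F →ₐ[F] K) (P : MvPolynomial (Fin m) F) :
    lam F κ g (S3.gen F m (s + r) P) = subk F κ (fun k => g (S3.genX F m s k)) P := by
  have : (lam F κ g).comp (S3.gen F m (s + r)) = subk F κ (fun k => g (S3.genX F m s k)) := by
    apply MvPolynomial.algHom_ext
    intro k
    rw [AlgHom.comp_apply, S3.gen, aeval_X, lam_genX F κ hκ g k, subk, aeval_X]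
  exact DFunLike.congr_fun this P

end Lam

theorem faith_of (hT : StT.{u}) (hI : StI.{u}) (hE : StEXCH2.{u}) : StFAITH.{u} := by
  classical
  intro F _ _ m r d s I _ P n hs hd hTi
  obtain ⟨s, rfl⟩ : ∃ s', s = s' + r := ⟨s - r, by
    have : r ≤ seeds r d := by unfold seeds; omega
    omega⟩
  have hs1 : (r + (r * d + 1) ^ r) * (d + 1) ^ r * d ≤ s := by
    unfold seeds at hs
    omega
  -- no zero factors
  let P' : I → MvPolynomial (Fin m) F := fun i => if P i = 0 then 1 else P i
  have hP'0 : ∀ i, P' i ≠ 0 := by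
    intro i
    simp only [P']
    split_ifs with h
    · exact one_ne_zero
    · exact h
  have hP'd : ∀ i, (P' i).totalDegree ≤ d := by
    intro i
    simp only [P']
    split_ifs with h
    · simp
    · exact hd i
  have hprod : ∀ j, ∏ i, P i ^ n j i = ∏ i, P' i ^ n j i := by
    intro j
    refine Finset.prod_congr rfl fun i _ => ?_
    simp only [P']
    split_ifs with h
    · have h1 : (∏ i, P i ^ n j i) ≠ 0 := hTi.ne_zero j
      have h2 := Finset.prod_ne_zero_iff.1 h1 i (Finset.mem_univ i)
      have h3 : n j i = 0 := by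
        by_contra h3
        exact h2 (by rw [h, zero_pow h3])
      rw [h3, pow_zero, pow_zero]
    · rfl
  simp only [hprod] at hTi ⊢
  obtain ⟨κ, hκ, hκi⟩ := hE F m r _ hTi
  let K₀ := FractionRing (MvPolynomial (Fin m) F)
  let K₁ := FractionRing (MvPolynomial (Fin s ⊕ Fin s) F)
  let f : MvPolynomial (Fin m) F →ₐ[F] K₀ := IsScalarTower.toAlgHom F _ _
  have hf : Function.Injective f := IsFractionRing.injective _ _
  let g₀ : MvPolynomial (Fin s ⊕ Fin s) F →ₐ[F] K₁ := IsScalarTower.toAlgHom F _ _
  have hg₀ : Function.Injective g₀ := IsFractionRing.injective _ _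
  let g : MvPolynomial (Fin m) F →ₐ[F] K₁ := g₀.comp (S3.gen F m s)
  let Q : I → MvPolynomial (Fin r) (MvPolynomial (Fin m) F) := fun i =>
    subk F κ (X : Fin m → MvPolynomial (Fin m) F) (P' i)
  have hQ : ∀ i, Bdd d d (Q i) := fun i => bdd_subk κ (P' i) (hP'd i)
  have hQ0 : ∀ i, Q i ≠ 0 := fun i h => hP'0 i (subk_eq_zero κ (P' i) h)
  have hgX : ∀ k, g (X k) = g₀ (S3.genX F m s k) := by
    intro k
    change g₀ (S3.gen F m s (X k)) = _
    rw [S3.gen, aeval_X]
  have h0 : ∀ j, ∏ i, map (f : MvPolynomial (Fin m) F →+* K₀) (Q i) ^ n j i =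
      subk F κ (fun k => f (X k)) (∏ i, P' i ^ n j i) := by
    intro j
    rw [map_prod]
    refine Finset.prod_congr rfl fun i _ => ?_
    rw [map_pow, map_subk κ f X (P' i)]
  have h1 : ∀ j, ∏ i, map (g : MvPolynomial (Fin m) F →+* K₁) (Q i) ^ n j i =
      subk F κ (fun k => g (X k)) (∏ i, P' i ^ n j i) := by
    intro j
    rw [map_prod]
    refine Finset.prod_congr rfl fun i _ => ?_
    rw [map_pow, map_subk κ g X (P' i)]
  have hK1 : AlgebraicIndependent K₁
      (fun j => ∏ i, map (g : MvPolynomial (Fin m) F →+* K₁) (Q i) ^ n j i) := by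
    apply hT K₀ K₁ r d I (fun i => map (f : MvPolynomial (Fin m) F →+* K₀) (Q i))
      (fun i => map (g : MvPolynomial (Fin m) F →+* K₁) (Q i)) n
    · intro i h
      apply hQ0 i
      exact map_injective (f : MvPolynomial (Fin m) F →+* K₀) hf (by rw [h, map_zero])
    · intro i
      exact (Finset.sup_mono (support_map_subset _ _)).trans (hQ i).1
    · intro S hS
      refine exists_common (s := s) hI Q hQ S ?_ (f : MvPolynomial (Fin m) F →+* K₀) hf
        (g : MvPolynomial (Fin m) F →+* K₁) ?_
      · refine le_trans ?_ hs1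
        exact Nat.mul_le_mul_right _ (Nat.mul_le_mul_right _ hS)
      · intro b hb
        exact hg₀ (by rw [map_zero]; exact hb)
    · have : (fun j => ∏ i, map (f : MvPolynomial (Fin m) F →+* K₀) (Q i) ^ n j i) =
          fun j => subk F κ (fun k => f (X k)) (∏ i, P' i ^ n j i) := funext h0
      rw [this]
      exact hκi
  have hF : AlgebraicIndependent F
      (fun j => subk F κ (fun k => g (X k)) (∏ i, P' i ^ n j i)) := by
    have : (fun j => ∏ i, map (g : MvPolynomial (Fin m) F →+* K₁) (Q i) ^ n j i) =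
        fun j => subk F κ (fun k => g (X k)) (∏ i, P' i ^ n j i) := funext h1
    rw [this] at hK1
    exact hK1.restrictScalars (R := F) (algebraMap F K₁).injective
  have : CharZero K₁ := charZero_of_injective_algebraMap (algebraMap F K₁).injective
  refine AlgebraicIndependent.of_comp (lam F κ g₀) ?_
  have h3 : (lam F κ g₀) ∘ (fun j => S3.gen F m (s + r) (∏ i, P' i ^ n j i)) =
      fun j => subk F κ (fun k => g (X k)) (∏ i, P' i ^ n j i) := by
    funext j
    have hfun : (fun k => g₀ (S3.genX F m s k)) = fun k => g (X k) :=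
      funext fun k => (hgX k).symm
    rw [← hfun]
    exact lam_gen F κ hκ g₀ _
  rw [h3]
  exact hF

end Pool.Agent.Lib.MP_64d474_lc.A7
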