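import Pool.Agent.Lib.MP_64d474_lc.A7.Defs70

set_option autoImplicit false

/-!
# Helpers for row T: base change of independence, generic points, an identity of values
-/

namespace Pool.Agent.Lib.MP_64d474_lc.A7

open MvPolynomial Cardinal

universe u v w

/-- coefficientwise extension of a linear functional -/
theorem exists_functional {k K : Type*} [Field k] [Field K] (ι : k →+* K) {σ τ : Type*}
    (h : MvPolynomial τ K) (hh : h ≠ 0) :
    ∃ Φ : MvPolynomial σ K →+ MvPolynomial σ k, ∃ h' : MvPolynomial τ k, h' ≠ 0 ∧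
      ∀ p : τ → MvPolynomial σ k, Φ (aeval (fun i => map ι (p i)) h) = aeval p h' := by
  classical
  let _ : Algebra k K := ι.toAlgebra
  obtain ⟨μ, hμ⟩ := MvPolynomial.ne_zero_iff.1 hh
  have h1 : ∃ φ : Module.Dual k K, φ (h.coeff μ) ≠ 0 := by
    by_contra hcon
    push Not at hcon
    exact hμ ((Module.forall_dual_apply_eq_zero_iff k _).1 hcon)
  obtain ⟨φ, hφ⟩ := h1
  have key : ∀ (ρ : Type _) (q : MvPolynomial ρ K), ∀ m : ρ →₀ ℕ,
      (∑ m ∈ q.support, monomial m (φ (q.coeff m)) : MvPolynomial ρ k).coeff m =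
        φ (q.coeff m) := by
    intro ρ q m
    rw [coeff_sum]
    simp only [coeff_monomial]
    rw [Finset.sum_ite_eq']
    split_ifs with hm
    · rfl
    · rw [notMem_support_iff] at hm
      rw [hm, map_zero]
  have key2 : ∀ (ρ : Type _) (q : MvPolynomial ρ K), ∀ m : ρ →₀ ℕ,
      (∑ m ∈ q.support, monomial m (φ (q.coeff m)) : MvPolynomial ρ k).coeff m =
        φ (q.coeff m) := by
    intro ρ q m
    rw [coeff_sum]
    simp only [coeff_monomial]
    rw [Finset.sum_ite_eq']
    split_ifs with hm
    · rfl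
    · rw [notMem_support_iff] at hm
      rw [hm, map_zero]
  let Φ : MvPolynomial σ K →+ MvPolynomial σ k :=
    AddMonoidHom.mk' (fun q => ∑ m ∈ q.support, monomial m (φ (q.coeff m))) (by
      intro a b
      ext m
      rw [coeff_add, key, key, key, coeff_add, map_add])
  have hΦ : ∀ (m : σ →₀ ℕ) (q : MvPolynomial σ K), (Φ q).coeff m = φ (q.coeff m) :=
    fun m q => key σ q m
  let h' : MvPolynomial τ k := ∑ m ∈ h.support, monomial m (φ (h.coeff m))
  have hh' : ∀ m, h'.coeff m = φ (h.coeff m) := fun m => key2 τ h m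
  refine ⟨Φ, h', ?_, ?_⟩
  · intro h0
    apply hφ
    rw [← hh', h0, coeff_zero]
  · intro p
    have hC : ∀ (a : K) (q : MvPolynomial σ k), Φ (C a * map ι q) = C (φ a) * q := by
      intro a q
      ext m
      rw [hΦ, coeff_C_mul, coeff_C_mul, coeff_map]
      have : a * ι (q.coeff m) = (q.coeff m) • a := by
        rw [Algebra.smul_def, mul_comm]
        rfl
      rw [this, map_smul, smul_eq_mul, mul_comm]
    have e1 : aeval (fun i => map ι (p i)) h =
        ∑ m ∈ h.support, C (h.coeff m) * map ι (m.prod fun i e => p i ^ e) := by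
      rw [aeval_def, eval₂_eq]
      refine Finset.sum_congr rfl fun m _ => ?_
      rw [Finsupp.prod, map_prod]
      congr 1
      refine Finset.prod_congr rfl fun i _ => ?_
      rw [map_pow]
    have e2 : aeval p h' = ∑ m ∈ h.support, C (φ (h.coeff m)) * (m.prod fun i e => p i ^ e) := by
      rw [aeval_def, eval₂_eq]
      have hs : h'.support ⊆ h.support := by
        intro m hm
        rw [mem_support_iff] at hm ⊢
        intro h0
        apply hm
        rw [hh', h0, map_zero]
      rw [← Finset.sum_subset hs]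
      · refine Finset.sum_congr rfl fun m _ => ?_
        rw [hh']
        rfl
      · intro m _ hm
        rw [notMem_support_iff, hh'] at hm
        rw [hm, C_0, zero_mul]
    rw [e1, e2, map_sum]
    exact Finset.sum_congr rfl fun m _ => hC _ _

/-- independence of polynomials is kept by base change -/
theorem indep_map {k K : Type*} [Field k] [Field K] (ι : k →+* K) {σ τ : Type*}
    (p : τ → MvPolynomial σ k) (hp : AlgebraicIndependent k p) :
    AlgebraicIndependent K (fun i => map ι (p i)) := by
  rw [algebraicIndependent_iff]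
  intro h h0
  by_contra hne
  obtain ⟨Φ, h', hh', hΦ⟩ := exists_functional (σ := σ) ι h hne
  apply hh'
  apply hp.eq_zero_of_aeval_eq_zero
  rw [← hΦ p, h0, map_zero]

/-- independence of polynomials over a larger field implies independence over the smaller one -/
theorem indep_of_map {k K : Type*} [Field k] [Field K] (ι : k →+* K) {σ τ : Type*}
    (p : τ → MvPolynomial σ k) (hp : AlgebraicIndependent K (fun i => map ι (p i))) :
    AlgebraicIndependent k p := by
  have := AlgebraicIndependent.of_ringHom_of_comp_eq (R := k) (S := K) (x := p) ι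
    (map ι : MvPolynomial σ k →+* MvPolynomial σ K) hp ι.injective (by
      ext a
      simp [algebraMap_eq])
  exact this

/-- a point with independent images is generic -/
theorem generic_of_indep {K Ω : Type*} [Field K] [Field Ω] [Algebra K Ω] {r : ℕ}
    (f : Fin r → MvPolynomial (Fin r) K) (q : Fin r → Ω)
    (h : AlgebraicIndependent K (fun j => aeval q (f j))) : AlgebraicIndependent K q := by
  classical
  let A := Algebra.adjoin K (Set.range q)
  let q' : Fin r → A := fun i => ⟨q i, Algebra.subset_adjoin ⟨i, rfl⟩⟩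
  have hq' : ∀ P : MvPolynomial (Fin r) K, ((aeval q' P : A) : Ω) = aeval q P := by
    intro P
    have := MvPolynomial.aeval_algebraMap_apply (A := A) Ω q' P
    exact this.symm
  have htop : Algebra.adjoin K (Set.range q') = ⊤ := by
    rw [eq_top_iff]
    rintro ⟨x, hx⟩ -
    have hx' : x ∈ (aeval q : MvPolynomial (Fin r) K →ₐ[K] Ω).range := by
      rw [← Algebra.adjoin_range_eq_range_aeval]
      exact hx
    obtain ⟨P, rfl⟩ := hx'
    have : (⟨aeval q P, hx⟩ : A) = aeval q' P := by
      apply Subtype.ext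
      rw [hq']
    have h2 : (⟨aeval q P, hx⟩ : A) ∈ Algebra.adjoin K (Set.range q') := by
      rw [this, Algebra.adjoin_range_eq_range_aeval]
      exact ⟨P, rfl⟩
    exact h2
  have : Algebra.IsAlgebraic (Algebra.adjoin K (Set.range q')) A := by
    constructor
    intro x
    have hx : x ∈ Algebra.adjoin K (Set.range q') := by rw [htop]; trivial
    exact isAlgebraic_algebraMap (⟨x, hx⟩ : Algebra.adjoin K (Set.range q'))
  have h' : AlgebraicIndependent K (fun j => (aeval q' (f j) : A)) := by
    have : AlgebraicIndependent K (A.val ∘ fun j => (aeval q' (f j) : A)) := by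
      convert h using 2 with j
      exact hq' (f j)
    exact AlgebraicIndependent.of_comp A.val this
  have hle := h'.lift_cardinalMk_le_trdeg
  have hb : IsTranscendenceBasis K q' :=
    Algebra.IsAlgebraic.isTranscendenceBasis_of_lift_le_trdeg_of_finite K q' hle
  have := hb.1.map' (f := A.val) Subtype.val_injective
  exact this

/-- an algebra homomorphism field over `K`, elements of value one -/
theorem val_eq_one {K E : Type*} [Field K] [Field E] [Algebra K E] (V : ValuationSubring E)
    (h : ∀ a : K, algebraMap K E a ∈ V) (a : K) (ha : a ≠ 0) :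
    V.valuation (algebraMap K E a) = 1 := by
  apply le_antisymm
  · exact (V.valuation_le_one_iff _).2 (h a)
  · have h1 := (V.valuation_le_one_iff _).2 (h a⁻¹)
    rw [map_inv₀, map_inv₀] at h1
    have h0 : V.valuation (algebraMap K E a) ≠ 0 := by
      rw [Valuation.ne_zero_iff]
      simpa using ha
    exact (inv_le_one₀ (zero_lt_iff.2 h0)).1 h1

theorem prod_zpow_sum {Γ : Type*} [CommGroupWithZero Γ] {x : Γ} (hx : x ≠ 0) {I : Type*}
    (s : Finset I) (f : I → ℤ) : ∏ i ∈ s, x ^ f i = x ^ ∑ i ∈ s, f i := by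
  classical
  induction s using Finset.induction_on with
  | empty => simp
  | insert i s hi ih => rw [Finset.prod_insert hi, Finset.sum_insert hi, ih, zpow_add₀ hx]

/-- the common exponent vector of a monomial in the `T j` after raising to a power -/
theorem pow_identity {Γ : Type*} [CommGroupWithZero Γ] {r : ℕ} {I : Type*} [Fintype I]
    [DecidableEq I] (g : I → Γ) (h : Fin r → Γ) (hh : ∀ l, h l ≠ 0) (a : I → ℕ)
    (ν : I → Fin r → ℤ) (hg : ∀ i, g i ^ a i = ∏ l, h l ^ ν i l)
    (n : Fin r → I → ℕ) (μ : Fin r → ℤ) :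
    (∏ j, (∏ i, g i ^ n j i) ^ μ j) ^ (∏ i, a i) =
      ∏ l, h l ^ (∑ j, ∑ i, μ j * (n j i * (∏ i' ∈ Finset.univ.erase i, a i')) * ν i l) := by
  have e1 : ∀ i, g i ^ (∏ i, a i) =
      ∏ l, h l ^ ((∏ i' ∈ Finset.univ.erase i, (a i' : ℤ)) * ν i l) := by
    intro i
    rw [← Finset.mul_prod_erase Finset.univ a (Finset.mem_univ i), pow_mul, hg,
      ← Finset.prod_pow]
    refine Finset.prod_congr rfl fun l _ => ?_
    rw [mul_comm, zpow_mul, ← Nat.cast_prod, zpow_natCast]
  rw [← Finset.prod_pow]
  have e2 : ∀ j, ((∏ i, g i ^ n j i) ^ μ j) ^ (∏ i, a i) =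
      ∏ l, h l ^ (∑ i, μ j * (n j i * (∏ i' ∈ Finset.univ.erase i, (a i' : ℤ))) * ν i l) := by
    intro j
    have e3 : ((∏ i, g i ^ n j i) ^ μ j) ^ (∏ i, a i) = (∏ i, (g i ^ (∏ i, a i)) ^ n j i) ^ μ j := by
      rw [← zpow_natCast, ← zpow_mul, mul_comm, zpow_mul, zpow_natCast, ← Finset.prod_pow]
      congr 1
      refine Finset.prod_congr rfl fun i _ => ?_
      rw [← pow_mul, ← pow_mul, mul_comm]
    rw [e3]
    have e4 : ∀ i, (g i ^ (∏ i, a i)) ^ n j i =
        ∏ l, h l ^ ((n j i : ℤ) * (∏ i' ∈ Finset.univ.erase i, (a i' : ℤ)) * ν i l) := by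
      intro i
      rw [e1, ← Finset.prod_pow]
      refine Finset.prod_congr rfl fun l _ => ?_
      rw [← zpow_natCast, ← zpow_mul]
      congr 1
      ring
    simp only [e4]
    rw [Finset.prod_comm, ← Finset.prod_zpow]
    refine Finset.prod_congr rfl fun l _ => ?_
    rw [prod_zpow_sum (hh l), ← zpow_mul, Finset.sum_mul]
    congr 1
    refine Finset.sum_congr rfl fun i _ => ?_
    ring
  simp only [e2]
  rw [Finset.prod_comm]
  refine Finset.prod_congr rfl fun l _ => ?_
  rw [prod_zpow_sum (hh l)]
  congr 1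
  refine Finset.sum_congr rfl fun j _ => Finset.sum_congr rfl fun i _ => ?_
  push_cast
  rfl

end Pool.Agent.Lib.MP_64d474_lc.A7
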