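import Pool.Agent.Lib.MP_64d474_lc.FV.Jac66
import Pool.Agent.Lib.MP_64d474_lc.FV.K97
import Pool.Agent.Lib.MP_64d474_lc.FV.J95
import Pool.Agent.Lib.MP_64d474_lc.A7.Defs70

set_option autoImplicit false

/-!
# Row I: the generator with `n d` seeds is injective on the algebra of `n` polynomials
-/

namespace Pool.Agent.Lib.MP_64d474_lc.A7

open MvPolynomial

universe u

namespace I95

theorem totalDegree_pderiv_le {F : Type*} [Field F] {m N : ℕ} (g : MvPolynomial (Fin m) F)
    (hg : g.totalDegree ≤ N + 1) (a : Fin m) : (pderiv a g).totalDegree ≤ N := by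
  rw [totalDegree]
  apply Finset.sup_le
  intro d hd
  rw [mem_support_iff, coeff_pderiv] at hd
  have h1 : coeff (d + Finsupp.single a 1) g ≠ 0 := left_ne_zero_of_mul hd
  have h2 := le_totalDegree (mem_support_iff.2 h1)
  rw [Finsupp.sum_add_index' (fun _ => rfl) (fun _ _ _ => rfl),
    Finsupp.sum_single_index rfl] at h2
  omega

theorem totalDegree_det_le {F : Type*} [Field F] {m ρ e : ℕ}
    (M : Matrix (Fin ρ) (Fin ρ) (MvPolynomial (Fin m) F)) (h : ∀ i j, (M i j).totalDegree ≤ e) :
    M.det.totalDegree ≤ ρ * e := by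
  rw [Matrix.det_apply]
  refine totalDegree_finsetSum_le fun σ _ => ?_
  rw [Units.smul_def]
  refine (totalDegree_smul_le _ _).trans ((totalDegree_finsetProd _ _).trans ?_)
  refine (Finset.sum_le_card_nsmul _ _ e fun i _ => h _ _).trans (le_of_eq ?_)
  simp

end I95

/-- Row I. -/
theorem i95 : StI.{u} := by
  intro F _ _ m n d s c hs hd H hgen
  rcases Nat.eq_zero_or_pos d with rfl | hdpos
  · obtain ⟨a, rfl⟩ : ∃ a : Fin n → F, c = fun i => C (a i) :=
      ⟨fun i => coeff 0 (c i), funext fun i =>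
        totalDegree_eq_zero_iff_eq_C.1 (Nat.le_zero.1 (hd i))⟩
    have h1 : aeval (fun i => (C (a i) : MvPolynomial (Fin m) F)) H = C (eval a H) := by
      have := MvPolynomial.comp_aeval_apply a (Algebra.ofId F (MvPolynomial (Fin m) F)) H
      rw [aeval_eq_eval] at this
      exact this.symm
    rw [h1] at hgen ⊢
    rw [S3.gen, aeval_C, algebraMap_eq, C_eq_zero] at hgen
    rw [hgen, C_0]
  · have hns : n ≤ s := le_trans (Nat.le_mul_of_pos_right n hdpos) hs
    obtain ⟨s₀, rfl⟩ := Nat.exists_eq_add_of_le' hns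
    obtain ⟨d, rfl⟩ := Nat.exists_eq_add_of_le' hdpos
    refine FV.jacHit FV.J95.stJ95 FV.rowK97 (r := n) (s₀ := s₀) c
      (fun t _ => by simpa using Finset.card_le_univ t) ?_ _ ?_ hgen
    · intro ρ e κ hρ hdet
      refine S3.gen_ne_zero hdet ((I95.totalDegree_det_le _ (e := d) fun i j =>
        I95.totalDegree_pderiv_le _ (hd _) _).trans ?_)
      have h2 : ρ * d ≤ n * d := Nat.mul_le_mul_right d hρ
      rw [Nat.mul_add, Nat.mul_one] at hs
      omega
    · rw [Algebra.adjoin_range_eq_range_aeval]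
      exact ⟨H, rfl⟩

end Pool.Agent.Lib.MP_64d474_lc.A7
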