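import Mathlib
import Pool.Agent.Lib.MP_64d474_lc.A7.Defs70

set_option autoImplicit false

namespace Pool.Agent.Lib.MP_64d474_lc.A7

universe u

theorem pow_inj_of_ne_one {Γ : Type*} [LinearOrderedCommGroupWithZero Γ] {x : Γ} (hx : x ≠ 0)
    (hx1 : x ≠ 1) {a b : ℕ} (h : x ^ a = x ^ b) : a = b := by
  wlog hab : a ≤ b generalizing a b
  · exact (this h.symm (le_of_not_ge hab)).symm
  obtain ⟨c, rfl⟩ := Nat.exists_eq_add_of_le hab
  rw [pow_add] at h
  have h1 : x ^ c = 1 := by
    have h2 : x ^ a * 1 = x ^ a * x ^ c := by rw [mul_one]; exact h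
    exact (mul_left_cancel₀ (pow_ne_zero a hx) h2).symm
  by_contra hne
  have hc : c ≠ 0 := by omega
  exact hx1 ((pow_eq_one_iff.1 h1).resolve_right hc)

theorem prod9 : StPROD.{u} := by
  classical
  intro σ I Γ _ _ γ hγ h
  by_contra hcon
  push Not at hcon
  choose i hi using hcon
  have key : ∀ S : Finset I, ∃ c : I → ℕ, ∀ q, (∃ j ∈ S, γ j q ≠ 1) →
      ∏ j ∈ S, γ j q ^ c j ≠ 1 := by
    intro S
    induction S using Finset.induction_on with
    | empty => exact ⟨0, fun q ⟨j, hj, _⟩ => absurd hj (Finset.notMem_empty j)⟩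
    | insert a S ha ih =>
      obtain ⟨c, hc⟩ := ih
      set bad : σ → Set ℕ := fun q =>
        {e | (∃ j ∈ insert a S, γ j q ≠ 1) ∧ γ a q ^ e * ∏ j ∈ S, γ j q ^ c j = 1} with hbad
      have hsub : ∀ q, (bad q).Subsingleton := by
        intro q e he e' he'
        obtain ⟨hex, he1⟩ := he
        obtain ⟨_, he1'⟩ := he'
        by_cases h1 : γ a q = 1
        · rw [h1, one_pow, one_mul] at he1
          obtain ⟨j, hj, hj1⟩ := hex
          rcases Finset.mem_insert.1 hj with rfl | hj'
          · exact absurd h1 hj1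
          · exact absurd he1 (hc q ⟨j, hj', hj1⟩)
        · have h2 : γ a q ^ e = γ a q ^ e' := by
            have h3 : ∏ j ∈ S, γ j q ^ c j ≠ 0 :=
              Finset.prod_ne_zero_iff.2 fun j _ => pow_ne_zero _ (hγ j q)
            exact mul_right_cancel₀ h3 (he1.trans he1'.symm)
          exact pow_inj_of_ne_one (hγ a q) h1 h2
      have hfin : (⋃ q, bad q).Finite := Set.finite_iUnion fun q => (hsub q).finite
      obtain ⟨e, he⟩ := hfin.infinite_compl.nonempty
      refine ⟨Function.update c a e, fun q hq => ?_⟩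
      rw [Finset.prod_insert ha, Function.update_self]
      have h4 : ∏ j ∈ S, γ j q ^ (Function.update c a e) j = ∏ j ∈ S, γ j q ^ c j := by
        refine Finset.prod_congr rfl fun j hj => ?_
        rw [Function.update_of_ne (fun h6 : j = a => ha (by rw [← h6]; exact hj))]
      rw [h4]
      intro h5
      exact he (Set.mem_iUnion.2 ⟨q, hq, h5⟩)
  obtain ⟨c, hc⟩ := key (Finset.univ.image i)
  obtain ⟨q, hq⟩ := h (Finset.univ.image i) c
    (Finset.card_image_le.trans (by rw [Finset.card_univ]))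
  exact hc q ⟨i q, Finset.mem_image_of_mem i (Finset.mem_univ q), hi q⟩ hq

end Pool.Agent.Lib.MP_64d474_lc.A7
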