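import Mathlib
import Pool.Agent.Lib.MP_64d474_lc.A7.Defs70

set_option autoImplicit false

namespace Pool.Agent.Lib.MP_64d474_lc.A7

open Polynomial

universe u

/-- a strictly dominating coefficient survives multiplication by `X - x`, `v x ≠ 1` -/
theorem dom_mul_X_sub_C {Ω Γ : Type*} [Field Ω] [LinearOrderedCommGroupWithZero Γ]
    (v : Valuation Ω Γ) (h : Polynomial Ω) (x : Ω) (hx : v x ≠ 1)
    (hd : ∃ j, ∀ i, i ≠ j → v (h.coeff i) < v (h.coeff j)) :
    ∃ j, ∀ i, i ≠ j → v ((h * (X - C x)).coeff i) < v ((h * (X - C x)).coeff j) := by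
  obtain ⟨j, hj⟩ := hd
  have hpos : 0 < v (h.coeff j) := lt_of_le_of_lt zero_le (hj (j + 1) (by omega))
  have hle : ∀ i, v (h.coeff i) ≤ v (h.coeff j) := by
    intro i
    by_cases hi : i = j
    · rw [hi]
    · exact (hj i hi).le
  have h0 : (h * (X - C x)).coeff 0 = -(h.coeff 0 * x) := by
    simp [mul_sub]
  have hs : ∀ i, (h * (X - C x)).coeff (i + 1) = h.coeff i - h.coeff (i + 1) * x := by
    intro i
    rw [mul_sub, coeff_sub, coeff_mul_X, coeff_mul_C]
  rcases lt_or_gt_of_ne hx with hx1 | hx1
  · refine ⟨j + 1, fun i hi => ?_⟩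
    have hmul : ∀ i, v (h.coeff i * x) < v (h.coeff j) := by
      intro i
      rw [map_mul]
      calc v (h.coeff i) * v x ≤ v (h.coeff j) * v x := mul_le_mul_left (hle i) _
        _ < v (h.coeff j) * 1 := by
          exact (mul_lt_mul_iff_right₀ hpos).2 hx1
        _ = v (h.coeff j) := mul_one _
    have htop : v ((h * (X - C x)).coeff (j + 1)) = v (h.coeff j) := by
      rw [hs]
      exact Valuation.map_sub_eq_of_lt_left _ (hmul (j + 1))
    rw [htop]
    cases i with
    | zero => rw [h0, Valuation.map_neg]; exact hmul 0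
    | succ i =>
      rw [hs]
      exact lt_of_le_of_lt (Valuation.map_sub _ _ _)
        (max_lt (hj i (fun h => hi (by rw [h]))) (hmul (i + 1)))
  · refine ⟨j, fun i hi => ?_⟩
    have hbig : v (h.coeff j) < v (h.coeff j * x) := by
      rw [map_mul]
      calc v (h.coeff j) = v (h.coeff j) * 1 := (mul_one _).symm
        _ < v (h.coeff j) * v x := (mul_lt_mul_iff_right₀ hpos).2 hx1
    have hxpos : 0 < v x := lt_trans zero_lt_one hx1
    have hmul : ∀ i, i ≠ j → v (h.coeff i * x) < v (h.coeff j * x) := by
      intro i hi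
      rw [map_mul, map_mul]
      exact (mul_lt_mul_iff_left₀ hxpos).2 (hj i hi)
    have htop : v ((h * (X - C x)).coeff j) = v (h.coeff j * x) := by
      cases j with
      | zero => rw [h0, Valuation.map_neg]
      | succ j =>
        rw [hs]
        exact Valuation.map_sub_eq_of_lt_right _ (lt_of_le_of_lt (hle j) hbig)
    rw [htop]
    cases i with
    | zero => rw [h0, Valuation.map_neg]; exact hmul 0 hi
    | succ i =>
      rw [hs]
      exact lt_of_le_of_lt (Valuation.map_sub _ _ _)
        (max_lt (lt_of_le_of_lt (hle i) hbig) (hmul (i + 1) hi))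

theorem newt9 : StNEWT.{u} := by
  intro Ω Γ _ _ _ v h hh hroot
  have hsplit := IsAlgClosed.splits h
  have key : ∀ (M : Multiset Ω) (a : Ω), a ≠ 0 → (∀ x ∈ M, v x ≠ 1) →
      ∃ j, ∀ i, i ≠ j → v ((C a * (M.map fun x => X - C x).prod).coeff i) <
        v ((C a * (M.map fun x => X - C x).prod).coeff j) := by
    intro M a ha
    induction M using Multiset.induction_on with
    | empty =>
      intro _
      refine ⟨0, fun i hi => ?_⟩
      simp only [Multiset.map_zero, Multiset.prod_zero, mul_one]
      rw [coeff_C_zero, coeff_C, if_neg hi, map_zero]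
      exact zero_lt_iff.2 ((Valuation.ne_zero_iff _).2 ha)
    | cons x M ih =>
      intro hM
      rw [Multiset.map_cons, Multiset.prod_cons]
      have h1 := dom_mul_X_sub_C v _ x (hM x (Multiset.mem_cons_self x M))
        (ih fun y hy => hM y (Multiset.mem_cons_of_mem hy))
      have h2 : C a * ((X - C x) * (M.map fun x => X - C x).prod) =
          C a * (M.map fun x => X - C x).prod * (X - C x) := by ring
      rw [h2]
      exact h1
  have h1 := key h.roots h.leadingCoeff (leadingCoeff_ne_zero.2 hh)
    (fun x hx => hroot x (isRoot_of_mem_roots hx))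
  rw [hsplit.eq_prod_roots]
  exact h1

end Pool.Agent.Lib.MP_64d474_lc.A7
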