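import Mathlib
import Pool.Agent.Lib.MP_64d474_lc.A7.Defs70
import Pool.Agent.Lib.MP_64d474_lc.A7.Newt9

set_option autoImplicit false

namespace Pool.Agent.Lib.MP_64d474_lc.A7

open MvPolynomial

universe u


/-- `r` independent polynomials in `r` variables are a transcendence basis of the field of rational
functions. -/
theorem isTB {k : Type u} [Field k] {r : ℕ} (p : Fin r → MvPolynomial (Fin r) k)
    (hp : AlgebraicIndependent k p) :
    IsTranscendenceBasis k
      (fun j => algebraMap (MvPolynomial (Fin r) k) (FractionRing (MvPolynomial (Fin r) k)) (p j)) := by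
  have : Algebra.IsAlgebraic (MvPolynomial (Fin r) k) (FractionRing (MvPolynomial (Fin r) k)) :=
    IsLocalization.isAlgebraic _ (nonZeroDivisors (MvPolynomial (Fin r) k))
  have h1 : IsTranscendenceBasis k (algebraMap (MvPolynomial (Fin r) k)
      (FractionRing (MvPolynomial (Fin r) k)) ∘ (X : Fin r → MvPolynomial (Fin r) k)) :=
    (IsTranscendenceBasis.mvPolynomial (Fin r) k).algebraMap_comp
  have h2 : AlgebraicIndependent k
      (fun j => algebraMap (MvPolynomial (Fin r) k) (FractionRing (MvPolynomial (Fin r) k)) (p j)) := by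
    refine hp.map' (f := IsScalarTower.toAlgHom k (MvPolynomial (Fin r) k)
      (FractionRing (MvPolynomial (Fin r) k))) ?_
    exact IsFractionRing.injective _ _
  refine h2.isTranscendenceBasis_of_lift_trdeg_le_of_finite ?_
  have h3 := h1.lift_cardinalMk_eq_trdeg
  exact h3.symm.le

/-- The relation between `p` and `A / B`, and its roots. -/
theorem exists_relation {k : Type u} [Field k] {r : ℕ} (p : Fin r → MvPolynomial (Fin r) k)
    (hp : AlgebraicIndependent k p) (A B : MvPolynomial (Fin r) k) (hB : B ≠ 0) :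
    ∃ G : Polynomial (MvPolynomial (Fin r) k), G ≠ 0 ∧
      (G.map (aeval p : MvPolynomial (Fin r) k →ₐ[k] MvPolynomial (Fin r) k).toRingHom).eval₂
        (algebraMap (MvPolynomial (Fin r) k) (FractionRing (MvPolynomial (Fin r) k)))
        (algebraMap (MvPolynomial (Fin r) k) (FractionRing (MvPolynomial (Fin r) k)) A /
          algebraMap (MvPolynomial (Fin r) k) (FractionRing (MvPolynomial (Fin r) k)) B) = 0 ∧
      ∀ (Ω : Type u) [Field Ω] [IsAlgClosed Ω] [Algebra k Ω] (t : Fin r → Ω),
        AlgebraicIndependent k t → ∀ ω : Ω,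
        (G.map (aeval t : MvPolynomial (Fin r) k →ₐ[k] Ω).toRingHom).IsRoot ω →
        ∃ q : Fin r → Ω, (∀ j, aeval q (p j) = t j) ∧ aeval q B ≠ 0 ∧
          aeval q A = ω * aeval q B := by
  classical
  set a : MvPolynomial (Fin r) k →+* FractionRing (MvPolynomial (Fin r) k) :=
    algebraMap (MvPolynomial (Fin r) k) (FractionRing (MvPolynomial (Fin r) k)) with ha
  have hainj : Function.Injective a := IsFractionRing.injective _ _
  have hTB := isTB p hp
  have hind : AlgebraicIndependent k (fun j => a (p j)) := hTB.1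
  have := hTB.isAlgebraic_field
  set k₁ := IntermediateField.adjoin k (Set.range fun j => a (p j)) with hk₁
  set Q : FractionRing (MvPolynomial (Fin r) k) := a A / a B with hQ
  set e := hind.aevalEquivField with he
  have hea : ∀ h, algebraMap k₁ (FractionRing (MvPolynomial (Fin r) k)) (e (a h)) =
      a (aeval p h) := by
    intro h
    have h3 := hind.aevalEquivField_algebraMap_apply_coe h
    have h4 : algebraMap k₁ (FractionRing (MvPolynomial (Fin r) k)) (e (a h)) =
        aeval (fun j => a (p j)) h := h3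
    rw [h4]
    have h5 := (map_aeval p a h)
    rw [aeval_def, ha]
    rw [ha] at h5
    rw [h5]
    rfl
  -- the minimal polynomial and its integral form
  set μ : Polynomial k₁ := minpoly k₁ Q with hμ
  have hμ0 : μ ≠ 0 := minpoly.ne_zero (Algebra.IsAlgebraic.isAlgebraic Q).isIntegral
  set μ' : Polynomial (FractionRing (MvPolynomial (Fin r) k)) :=
    μ.map (e.symm : k₁ →+* FractionRing (MvPolynomial (Fin r) k)) with hμ'
  obtain ⟨b, hbM, hb⟩ := IsLocalization.integerNormalization_spec
    (nonZeroDivisors (MvPolynomial (Fin r) k)) μ'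
  set G := IsLocalization.integerNormalization
    (nonZeroDivisors (MvPolynomial (Fin r) k)) μ' with hG
  have hbne : b ≠ 0 := nonZeroDivisors.ne_zero hbM
  have hμ'0 : μ' ≠ 0 := by
    rw [hμ', Polynomial.map_ne_zero_iff (RingEquiv.injective _)]
    exact hμ0
  have hGmap : G.map a = Polynomial.C (a b) * μ' := by
    rw [ha, hb, Algebra.smul_def]
    rfl
  refine ⟨G, ?_, ?_, ?_⟩
  · intro h0
    rw [h0, Polynomial.map_zero] at hGmap
    have := mul_ne_zero (Polynomial.C_ne_zero.2 ((map_ne_zero_iff a hainj).2 hbne)) hμ'0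
    exact this hGmap.symm
  · -- relation
    have h1 : (Polynomial.map (algebraMap k₁ (FractionRing (MvPolynomial (Fin r) k)))
        (Polynomial.map (e : FractionRing (MvPolynomial (Fin r) k) →+* k₁) (G.map a))).eval Q = 0 := by
      rw [hGmap, Polynomial.map_mul, Polynomial.map_mul, Polynomial.eval_mul]
      have h2 : Polynomial.map (e : FractionRing (MvPolynomial (Fin r) k) →+* k₁) μ' = μ := by
        rw [hμ', Polynomial.map_map]
        have h3 : (e : FractionRing (MvPolynomial (Fin r) k) →+* k₁).comp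
            (e.symm : k₁ →+* FractionRing (MvPolynomial (Fin r) k)) = RingHom.id _ := by
          ext x
          simp
        rw [h3, Polynomial.map_id]
      rw [h2, ← Polynomial.eval₂_eq_eval_map (x := Q) (p := μ), ← Polynomial.aeval_def, hμ,
        minpoly.aeval, mul_zero]
    rw [Polynomial.map_map, Polynomial.map_map] at h1
    rw [Polynomial.eval₂_eq_eval_map, Polynomial.map_map]
    rw [← h1]
    have h6 : a.comp (aeval p : MvPolynomial (Fin r) k →ₐ[k] MvPolynomial (Fin r) k).toRingHom =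
        ((algebraMap (↥k₁) (FractionRing (MvPolynomial (Fin r) k))).comp
          (e : FractionRing (MvPolynomial (Fin r) k) →+* k₁)).comp a :=
      RingHom.ext fun h => (hea h).symm
    rw [h6]
  · intro Ω _ _ _ t ht ω hω
    have htinj : Function.Injective (aeval t : MvPolynomial (Fin r) k →ₐ[k] Ω) := ht
    set l : FractionRing (MvPolynomial (Fin r) k) →ₐ[k] Ω :=
      IsFractionRing.liftAlgHom (K := FractionRing (MvPolynomial (Fin r) k)) htinj with hl
    have hla : ∀ x, l (a x) = aeval t x := by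
      intro x
      rw [hl, ha]
      simp
    let σ : k₁ →ₐ[k] Ω := l.comp (e.symm : k₁ →ₐ[k] FractionRing (MvPolynomial (Fin r) k))
    let : Algebra k₁ Ω := σ.toRingHom.toAlgebra
    have hroot : ω ∈ μ.rootSet Ω := by
      rw [Polynomial.mem_rootSet']
      refine ⟨(Polynomial.map_ne_zero_iff (RingHom.injective _)).2 hμ0, ?_⟩
      have h1 : (G.map a).map (l : FractionRing (MvPolynomial (Fin r) k) →+* Ω) =
          G.map (aeval t : MvPolynomial (Fin r) k →ₐ[k] Ω).toRingHom := by
        rw [Polynomial.map_map]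
        congr 1
        ext x
        · simp [hla]
        · simp [hla]
      rw [Polynomial.IsRoot, ← h1, hGmap, Polynomial.map_mul, Polynomial.eval_mul] at hω
      have h2 : ((Polynomial.C (a b)).map
          (l : FractionRing (MvPolynomial (Fin r) k) →+* Ω)).eval ω ≠ 0 := by
        rw [Polynomial.map_C, Polynomial.eval_C]
        change l (a b) ≠ 0
        rw [hla]
        exact (map_ne_zero_iff _ htinj).2 hbne
      have h3 := (mul_eq_zero.1 hω).resolve_left h2
      rw [hμ', Polynomial.map_map] at h3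
      rw [Polynomial.aeval_def, Polynomial.eval₂_eq_eval_map]
      exact h3
    rw [← Algebra.IsAlgebraic.range_eval_eq_rootSet_minpoly] at hroot
    obtain ⟨ψ, hψ⟩ := hroot
    have hψk : ∀ c : k, ψ (algebraMap k (FractionRing (MvPolynomial (Fin r) k)) c) =
        algebraMap k Ω c := by
      intro c
      have h1 := ψ.commutes (algebraMap k k₁ c)
      have h2 : algebraMap k₁ Ω (algebraMap k k₁ c) = algebraMap k Ω c := by
        change σ (algebraMap k k₁ c) = _
        exact σ.commutes c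
      rw [h2] at h1
      exact h1
    set q : Fin r → Ω := fun j => ψ (a (X j)) with hq
    have hψq : ∀ h : MvPolynomial (Fin r) k, ψ (a h) = aeval q h := by
      intro h
      have h1 : (ψ : FractionRing (MvPolynomial (Fin r) k) →+* Ω).comp a =
          (aeval q : MvPolynomial (Fin r) k →ₐ[k] Ω).toRingHom := by
        ext x
        · simp only [RingHom.comp_apply, AlgHom.toRingHom_eq_coe, RingHom.coe_coe,
            MvPolynomial.aeval_C]
          exact hψk x
        · simp [hq]
      exact congrArg (fun φ : MvPolynomial (Fin r) k →+* Ω => φ h) h1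
    have hBq : aeval q B ≠ 0 := by
      rw [← hψq]
      exact (map_ne_zero_iff _ ψ.toRingHom.injective).2 ((map_ne_zero_iff a hainj).2 hB)
    refine ⟨q, fun j => ?_, hBq, ?_⟩
    · rw [← hψq]
      have hmem : a (p j) ∈ k₁ := IntermediateField.subset_adjoin _ _ ⟨j, rfl⟩
      have h1 := ψ.commutes (⟨a (p j), hmem⟩ : k₁)
      have h2 : algebraMap k₁ Ω (⟨a (p j), hmem⟩ : k₁) = t j := by
        change l (e.symm ⟨a (p j), hmem⟩) = t j
        have h3 : e (a (X j)) = ⟨a (p j), hmem⟩ := by
          apply Subtype.ext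
          have h4 := hea (X j)
          rw [aeval_X] at h4
          exact h4
        rw [← h3, AlgEquiv.symm_apply_apply, hla, aeval_X]
      rw [h2] at h1
      exact h1
    · rw [← hψq, ← hψq, ← hψ]
      change ψ (a A) = ψ Q * ψ (a B)
      rw [← map_mul, hQ, div_mul_cancel₀ _ ((map_ne_zero_iff a hainj).2 hB)]

theorem prod_zpow_sub {E : Type*} [Field E] {r : ℕ} (f : Fin r → E) (hf : ∀ j, f j ≠ 0)
    (μ ν : Fin r →₀ ℕ) :
    ∏ j, f j ^ ((μ j : ℤ) - (ν j : ℤ)) = (∏ j, f j ^ μ j) / ∏ j, f j ^ ν j := by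
  rw [← Finset.prod_div_distrib]
  refine Finset.prod_congr rfl fun j _ => ?_
  rw [zpow_sub₀ (hf j), zpow_natCast, zpow_natCast]

theorem ord_transport {E Ω Γ₀ Γ₁ : Type*} [Field E] [Field Ω] [LinearOrderedCommGroupWithZero Γ₀]
    [LinearOrderedCommGroupWithZero Γ₁] (v₀ : Valuation E Γ₀) (v₁ : Valuation Ω Γ₁) {r : ℕ}
    (f : Fin r → E) (t : Fin r → Ω) (hf : ∀ j, f j ≠ 0) (ht : ∀ j, t j ≠ 0) (hV : VInd v₀ f)
    (htr : ∀ ν : Fin r → ℤ, v₀ (∏ j, f j ^ ν j) < 1 → v₁ (∏ j, t j ^ ν j) < 1)
    (μ ν : Fin r →₀ ℕ) (h : v₀ (∏ j, f j ^ μ j) ≤ v₀ (∏ j, f j ^ ν j)) :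
    v₁ (∏ j, t j ^ μ j) ≤ v₁ (∏ j, t j ^ ν j) := by
  have hfν : 0 < v₀ (∏ j, f j ^ ν j) := zero_lt_iff.2 ((Valuation.ne_zero_iff _).2
    (Finset.prod_ne_zero_iff.2 fun j _ => pow_ne_zero _ (hf j)))
  have htν : 0 < v₁ (∏ j, t j ^ ν j) := zero_lt_iff.2 ((Valuation.ne_zero_iff _).2
    (Finset.prod_ne_zero_iff.2 fun j _ => pow_ne_zero _ (ht j)))
  have h1 : v₀ (∏ j, f j ^ ((μ j : ℤ) - (ν j : ℤ))) ≤ 1 := by
    rw [prod_zpow_sub f hf, map_div₀]
    exact (div_le_one₀ hfν).2 h
  rcases h1.eq_or_lt with h2 | h2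
  · have h3 := hV _ h2
    have h4 : μ = ν := by
      ext j
      have h5 := congrFun h3 j
      simp only [Pi.zero_apply] at h5
      omega
    rw [h4]
  · have h3 := htr _ h2
    rw [prod_zpow_sub t ht, map_div₀] at h3
    exact ((div_lt_one₀ htν).1 h3).le

theorem root9 (hDOM : StDOM.{u}) : StROOT.{u} := by
  classical
  intro k E Ω Γ₀ Γ₁ _ _ _ _ _ _ _ _ v₀ v₁ r x p t A B hx htr0 htr1 hf0 ht0 hV htr hA hB hAB
  set f : Fin r → E := fun j => aeval x (p j) with hf
  obtain ⟨hfi, hfd⟩ := hDOM k E Γ₀ v₀ r f htr0 hf0 hV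
  have hp : AlgebraicIndependent k p :=
    AlgebraicIndependent.of_comp (aeval x : MvPolynomial (Fin r) k →ₐ[k] E) hfi
  have hVt : VInd v₁ t := by
    intro ν hν
    by_contra hne
    have h1 : v₀ (∏ j, f j ^ ν j) ≠ 1 := fun h => hne (hV ν h)
    rcases lt_or_gt_of_ne h1 with h2 | h2
    · exact absurd hν (htr ν h2).ne
    · have h3 : ∀ {R : Type u} [Field R] (g : Fin r → R),
          ∏ j, g j ^ ((-ν) j) = (∏ j, g j ^ ν j)⁻¹ := by
        intro R _ g
        rw [← Finset.prod_inv_distrib]
        exact Finset.prod_congr rfl fun j _ => by rw [Pi.neg_apply, zpow_neg]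
      have h4 : v₀ (∏ j, f j ^ (-ν) j) < 1 := by
        rw [h3, map_inv₀]
        exact inv_lt_one_of_one_lt₀ h2
      have h5 := htr _ h4
      rw [h3, map_inv₀, hν, inv_one] at h5
      exact lt_irrefl _ h5
  obtain ⟨hti, htd⟩ := hDOM k Ω Γ₁ v₁ r t htr1 ht0 hVt
  obtain ⟨G, hG0, hGrel, hGroot⟩ := exists_relation p hp A B hB
  have hxinj : Function.Injective (aeval x : MvPolynomial (Fin r) k →ₐ[k] E) := hx
  have hBx : aeval x B ≠ 0 := (map_ne_zero_iff _ hxinj).2 hB
  -- the relation in `E`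
  set θ : E := aeval x A / aeval x B with hθ
  have hθv : v₀ θ = 1 := by
    rw [hθ, map_div₀, hAB, div_self ((Valuation.ne_zero_iff _).2 hBx)]
  have hrel : ∑ i ∈ Finset.range (G.natDegree + 1), aeval f (G.coeff i) * θ ^ i = 0 := by
    set l : FractionRing (MvPolynomial (Fin r) k) →ₐ[k] E :=
      IsFractionRing.liftAlgHom (K := FractionRing (MvPolynomial (Fin r) k)) hxinj with hl
    have hla : ∀ z, l (algebraMap (MvPolynomial (Fin r) k) _ z) = aeval x z := by
      intro z
      rw [hl]
      simp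
    have h1 := congrArg l hGrel
    rw [Polynomial.eval₂_map, map_zero, Polynomial.eval₂_eq_sum_range, map_sum] at h1
    rw [← h1]
    refine Finset.sum_congr rfl fun i _ => ?_
    rw [map_mul, map_pow, map_div₀, hla, hla, RingHom.comp_apply, hla]
    congr 1
    rw [AlgHom.toRingHom_eq_coe, RingHom.coe_coe, ← AlgHom.comp_apply]
    congr 1
    ext i
    simp [hf]
  -- dominant exponents agree
  have hval : ∀ g : MvPolynomial (Fin r) k, g ≠ 0 → ∃ ν : Fin r →₀ ℕ,
      v₀ (aeval f g) = v₀ (∏ j, f j ^ ν j) ∧ v₁ (aeval t g) = v₁ (∏ j, t j ^ ν j) := by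
    intro g hg
    obtain ⟨ν, hν, hν1, hν2⟩ := hfd g hg
    obtain ⟨ν', hν', hν'1, hν'2⟩ := htd g hg
    refine ⟨ν, hν1, ?_⟩
    rw [hν'1]
    exact le_antisymm (ord_transport v₀ v₁ f t hf0 ht0 hV htr ν' ν (hν2 ν' hν')) (hν'2 ν hν)
  -- a root of value one
  have hroot : ∃ ω, (G.map (aeval t : MvPolynomial (Fin r) k →ₐ[k] Ω).toRingHom).IsRoot ω ∧
      v₁ ω = 1 := by
    by_contra hno
    push Not at hno
    have hne : G.map (aeval t : MvPolynomial (Fin r) k →ₐ[k] Ω).toRingHom ≠ 0 :=
      (Polynomial.map_ne_zero_iff hti).2 hG0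
    obtain ⟨j, hj⟩ := newt9 Ω Γ₁ v₁ _ hne hno
    simp only [Polynomial.coeff_map] at hj
    have hj' : ∀ i, i ≠ j → v₁ (aeval t (G.coeff i)) < v₁ (aeval t (G.coeff j)) := hj
    have hGj : G.coeff j ≠ 0 := by
      intro h
      have h1 := hj' (j + 1) (by omega)
      rw [h, map_zero, map_zero] at h1
      exact absurd h1 (not_lt.2 zero_le)
    obtain ⟨νj, hνj0, hνj1⟩ := hval _ hGj
    have hkey : ∀ i, i ≠ j → v₀ (aeval f (G.coeff i)) < v₀ (aeval f (G.coeff j)) := by
      intro i hi
      by_cases hGi : G.coeff i = 0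
      · rw [hGi, map_zero, map_zero]
        exact zero_lt_iff.2 ((Valuation.ne_zero_iff _).2 ((map_ne_zero_iff _ hfi).2 hGj))
      · obtain ⟨νi, hνi0, hνi1⟩ := hval _ hGi
        by_contra hle
        rw [not_lt, hνi0, hνj0] at hle
        have h1 := ord_transport v₀ v₁ f t hf0 ht0 hV htr νj νi hle
        have h2 := hj' i hi
        rw [hνi1, hνj1] at h2
        exact absurd h2 (not_lt.2 h1)
    have hjmem : j ∈ Finset.range (G.natDegree + 1) := by
      rw [Finset.mem_range, Nat.lt_succ_iff]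
      exact Polynomial.le_natDegree_of_ne_zero hGj
    rw [← Finset.add_sum_erase _ _ hjmem] at hrel
    have h3 := eq_neg_of_add_eq_zero_left hrel
    have h4 : v₀ (aeval f (G.coeff j) * θ ^ j) < v₀ (aeval f (G.coeff j)) := by
      rw [h3, Valuation.map_neg]
      refine Valuation.map_sum_lt _ ((Valuation.ne_zero_iff _).2 ((map_ne_zero_iff _ hfi).2 hGj)) ?_
      intro i hi
      rw [map_mul, map_pow, hθv, one_pow, mul_one]
      exact hkey i (Finset.ne_of_mem_erase hi)
    rw [map_mul, map_pow, hθv, one_pow, mul_one] at h4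
    exact lt_irrefl _ h4
  obtain ⟨ω, hω, hω1⟩ := hroot
  obtain ⟨q, hq, _, hqA⟩ := hGroot Ω t hti ω hω
  exact ⟨q, hq, by rw [hqA, map_mul, hω1, one_mul]⟩

end Pool.Agent.Lib.MP_64d474_lc.A7
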