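import Pool.Agent.Lib.MP_64d474_lc.A7.Defs70

/-!
# Row VAL: a valuation with prescribed positive Laurent monomials (helper59)
-/

set_option autoImplicit false

namespace Pool.Agent.Lib.MP_64d474_lc.A7

open MvPolynomial

universe u

namespace Val59

variable {K Ω : Type u} [Field K] [Field Ω] [Algebra K Ω] {r : ℕ}

theorem mono_add (t : Fin r → Ω) (ht : ∀ j, t j ≠ 0) (a b : Fin r → ℤ) :
    ∏ j, t j ^ (a + b) j = (∏ j, t j ^ a j) * ∏ j, t j ^ b j := by
  rw [← Finset.prod_mul_distrib]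
  exact Finset.prod_congr rfl fun j _ => by rw [Pi.add_apply, zpow_add₀ (ht j)]

/-- the span of the positive Laurent monomials -/
def posSpan (K : Type u) [Field K] [Algebra K Ω] (t : Fin r → Ω)
    (pos : (Fin r → ℤ) → Prop) : Submodule K Ω :=
  Submodule.span K {x | ∃ ν, pos ν ∧ x = ∏ j, t j ^ ν j}

theorem posSpan_mul {t : Fin r → Ω} (ht : ∀ j, t j ≠ 0) {pos : (Fin r → ℤ) → Prop}
    (hpos : ∀ a b, pos a → pos b → pos (a + b)) {x y : Ω} (hx : x ∈ posSpan K t pos)
    (hy : y ∈ posSpan K t pos) : x * y ∈ posSpan K t pos := by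
  unfold posSpan at hx hy ⊢
  induction hx using Submodule.span_induction with
  | mem x hx =>
    obtain ⟨a, ha, rfl⟩ := hx
    induction hy using Submodule.span_induction with
    | mem y hy =>
      obtain ⟨b, hb, rfl⟩ := hy
      exact Submodule.subset_span ⟨a + b, hpos a b ha hb, (mono_add t ht a b).symm⟩
    | zero => rw [mul_zero]; exact Submodule.zero_mem _
    | add y z _ _ h1 h2 => rw [mul_add]; exact Submodule.add_mem _ h1 h2
    | smul c y _ h1 => rw [mul_smul_comm]; exact Submodule.smul_mem _ _ h1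
  | zero => rw [zero_mul]; exact Submodule.zero_mem _
  | add y z _ _ h1 h2 => rw [add_mul]; exact Submodule.add_mem _ h1 h2
  | smul c y _ h1 => rw [smul_mul_assoc]; exact Submodule.smul_mem _ _ h1

/-- what can be said of the elements of the span -/
def Pr (K : Type u) [Field K] [Algebra K Ω] (t : Fin r → Ω) (x : Ω) : Prop :=
  ∃ (N : Fin r →₀ ℕ) (f : MvPolynomial (Fin r) K), f.coeff N = 0 ∧
    aeval t f = x * ∏ j, t j ^ N j

theorem aeval_mono (t : Fin r → Ω) (N : Fin r →₀ ℕ) :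
    aeval t (monomial N (1 : K)) = ∏ j, t j ^ N j := by
  rw [aeval_monomial, map_one, one_mul, Finsupp.prod_fintype]
  intro i; exact pow_zero _

theorem Pr.shift {t : Fin r → Ω} {x : Ω} {N : Fin r →₀ ℕ} {f : MvPolynomial (Fin r) K}
    (h : f.coeff N = 0) (h' : aeval t f = x * ∏ j, t j ^ N j) (M : Fin r →₀ ℕ) :
    (f * monomial M 1).coeff (N + M) = 0 ∧
      aeval t (f * monomial M 1) = x * ∏ j, t j ^ (N + M) j := by
  constructor
  · rw [coeff_mul_monomial, mul_one, h]
  · rw [map_mul, aeval_mono, h', mul_assoc, ← Finset.prod_mul_distrib]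
    congr 1
    exact Finset.prod_congr rfl fun j _ => by rw [Finsupp.add_apply, pow_add]

theorem pr_of_mem {t : Fin r → Ω} (ht : ∀ j, t j ≠ 0) {pos : (Fin r → ℤ) → Prop}
    (h0 : ¬ pos 0) {x : Ω} (hx : x ∈ posSpan K t pos) : Pr K t x := by
  classical
  unfold posSpan at hx
  induction hx using Submodule.span_induction with
  | mem x hx =>
    obtain ⟨a, ha, rfl⟩ := hx
    refine ⟨Finsupp.equivFunOnFinite.symm fun j => (-(a j)).toNat,
      monomial (Finsupp.equivFunOnFinite.symm fun j => (a j).toNat) 1, ?_, ?_⟩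
    · rw [coeff_monomial, if_neg]
      intro h
      apply h0
      have : a = 0 := by
        funext j
        have h1 := DFunLike.congr_fun h j
        simp only [Finsupp.equivFunOnFinite_symm_apply_apply] at h1
        have h2 : a j = 0 := by omega
        simpa using h2
      rwa [this] at ha
    · rw [aeval_mono, ← Finset.prod_mul_distrib]
      refine Finset.prod_congr rfl fun j _ => ?_
      simp only [Finsupp.equivFunOnFinite_symm_apply_apply]
      rw [← zpow_natCast, ← zpow_natCast, ← zpow_add₀ (ht j)]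
      congr 1
      omega
  | zero => exact ⟨0, 0, by simp, by simp⟩
  | add y z _ _ h1 h2 =>
    obtain ⟨N, f, hf, hf'⟩ := h1
    obtain ⟨M, g, hg, hg'⟩ := h2
    obtain ⟨h1, h2⟩ := Pr.shift hf hf' M
    obtain ⟨h3, h4⟩ := Pr.shift hg hg' N
    refine ⟨N + M, f * monomial M 1 + g * monomial N 1, ?_, ?_⟩
    · rw [coeff_add, h1, add_comm N M, h3, add_zero]
    · rw [map_add, h2, h4, add_comm M N, add_mul]
  | smul c y _ h1 =>
    obtain ⟨N, f, hf, hf'⟩ := h1
    refine ⟨N, c • f, ?_, ?_⟩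
    · rw [coeff_smul, hf, smul_zero]
    · rw [map_smul, hf', smul_mul_assoc]

theorem one_notMem {t : Fin r → Ω} (hi : AlgebraicIndependent K t) (ht : ∀ j, t j ≠ 0)
    {pos : (Fin r → ℤ) → Prop} (h0 : ¬ pos 0) : (1 : Ω) ∉ posSpan K t pos := by
  intro h
  obtain ⟨N, f, hf, hf'⟩ := pr_of_mem ht h0 h
  have : f = monomial N 1 := by
    apply hi
    rw [hf', one_mul, aeval_mono]
  rw [this, coeff_monomial, if_pos rfl] at hf
  exact one_ne_zero hf

/-- the ring -/
def ring (K : Type u) [Field K] [Algebra K Ω] (t : Fin r → Ω) (ht : ∀ j, t j ≠ 0)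
    (pos : (Fin r → ℤ) → Prop) (hpos : ∀ a b, pos a → pos b → pos (a + b)) : Subring Ω where
  carrier := {x | ∃ c : K, ∃ y ∈ posSpan K t pos, x = algebraMap K Ω c + y}
  mul_mem' := by
    rintro _ _ ⟨c, y, hy, rfl⟩ ⟨c', y', hy', rfl⟩
    refine ⟨c * c', c • y' + c' • y + y * y', ?_, ?_⟩
    · exact Submodule.add_mem _ (Submodule.add_mem _ (Submodule.smul_mem _ _ hy')
        (Submodule.smul_mem _ _ hy)) (posSpan_mul ht hpos hy hy')
    · rw [map_mul, Algebra.smul_def, Algebra.smul_def]; ring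
  add_mem' := by
    rintro _ _ ⟨c, y, hy, rfl⟩ ⟨c', y', hy', rfl⟩
    exact ⟨c + c', y + y', Submodule.add_mem _ hy hy', by rw [map_add]; ring⟩
  neg_mem' := by
    rintro _ ⟨c, y, hy, rfl⟩
    exact ⟨-c, -y, Submodule.neg_mem _ hy, by rw [map_neg]; ring⟩
  one_mem' := ⟨1, 0, Submodule.zero_mem _, by simp⟩
  zero_mem' := ⟨0, 0, Submodule.zero_mem _, by simp⟩

/-- the ideal -/
def ideal (K : Type u) [Field K] [Algebra K Ω] (t : Fin r → Ω) (ht : ∀ j, t j ≠ 0)
    (pos : (Fin r → ℤ) → Prop) (hpos : ∀ a b, pos a → pos b → pos (a + b)) :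
    Ideal (ring K t ht pos hpos) where
  carrier := {x | (x : Ω) ∈ posSpan K t pos}
  add_mem' := fun {a b} hx hy => by
    change (a : Ω) + (b : Ω) ∈ posSpan K t pos
    exact Submodule.add_mem _ hx hy
  zero_mem' := by
    change (0 : Ω) ∈ posSpan K t pos
    exact Submodule.zero_mem _
  smul_mem' := by
    rintro ⟨_, c, y, hy, rfl⟩ x hx
    change (algebraMap K Ω c + y) * (x : Ω) ∈ posSpan K t pos
    rw [add_mul, ← Algebra.smul_def]
    exact Submodule.add_mem _ (Submodule.smul_mem _ _ hx) (posSpan_mul ht hpos hy hx)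

end Val59

open Val59 in
theorem val59 : StVAL.{u} := by
  intro K Ω _ _ _ r t hi pos h0 hpos
  have ht : ∀ j, t j ≠ 0 := fun j => hi.ne_zero j
  have hne : ideal K t ht pos hpos ≠ ⊤ := by
    intro h
    have h1 : (1 : ring K t ht pos hpos) ∈ ideal K t ht pos hpos := by rw [h]; trivial
    have h2 : ((1 : ring K t ht pos hpos) : Ω) ∈ posSpan K t pos := h1
    exact one_notMem hi ht h0 (by simpa using h2)
  obtain ⟨B, hB, hI⟩ := Ideal.image_subset_nonunits_valuationSubring (ideal K t ht pos hpos) hne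
  refine ⟨B, fun a => hB ⟨a, 0, Submodule.zero_mem _, by simp⟩, fun ν hν => ?_⟩
  have hm : (∏ j, t j ^ ν j) ∈ posSpan K t pos := Submodule.subset_span ⟨ν, hν, rfl⟩
  have hr : (∏ j, t j ^ ν j) ∈ ring K t ht pos hpos := ⟨0, _, hm, by rw [map_zero, zero_add]⟩
  have hmem : (⟨∏ j, t j ^ ν j, hr⟩ : ring K t ht pos hpos) ∈ ideal K t ht pos hpos := by
    change (∏ j, t j ^ ν j) ∈ posSpan K t pos
    exact hm
  have : (∏ j, t j ^ ν j) ∈ B.nonunits := hI ⟨_, hmem, rfl⟩
  exact this

end Pool.Agent.Lib.MP_64d474_lc.A7
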