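import Pool.Agent.Lib.MP_64d474_lc.A7.T70
import Pool.Agent.Lib.MP_64d474_lc.A7.All70
import Pool.Agent.Lib.MP_64d474_lc.A7.Val59
import Pool.Agent.Lib.MP_64d474_lc.A7.Dom59
import Pool.Agent.Lib.MP_64d474_lc.A7.Core9
import Pool.Agent.Lib.MP_64d474_lc.A7.Bez9
import Pool.Agent.Lib.MP_64d474_lc.A7.Root9
import Pool.Agent.Lib.MP_64d474_lc.A7.Prod9
import Pool.Agent.Lib.MP_64d474_lc.A7.Exch95
import Pool.Agent.Lib.MP_64d474_lc.A7.I95

set_option autoImplicit false

/-!
# Any bounded number of products of low degree polynomials: the theorem without hypotheses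
-/

namespace Pool.Agent.Lib.MP_64d474_lc.A7

open MvPolynomial

universe u

theorem t70 : StT.{u} :=
  t_of val59 dom59 (core9 dom59) bez9 (root9 dom59) prod9

theorem faith70 : StFAITH.{u} := faith_of t70 i95 (exch2_of exch95)

theorem all70 : StALL.{u} := all_of faith70

/-- every polynomial in products of transcendence degree at most `r` -/
theorem trdeg70 (F : Type u) [Field F] [CharZero F] (m k r d s : ℕ)
    (I : Type) [Fintype I] (P : I → MvPolynomial (Fin m) F) (n : Fin k → I → ℕ)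
    (hs : seeds r d ≤ s) (hd : ∀ i, (P i).totalDegree ≤ d)
    (hr : ∀ (l : ℕ) (e : Fin l → Fin k),
      AlgebraicIndependent F (fun j => ∏ i, P i ^ n (e j) i) → l ≤ r)
    (H : MvPolynomial (Fin k) F)
    (hH : S3.gen F m s (aeval (fun j => ∏ i, P i ^ n j i) H) = 0) :
    aeval (fun j => ∏ i, P i ^ n j i) H = 0 :=
  trdeg_of faith70 F m k r d s I P n hs hd hr H hH

end Pool.Agent.Lib.MP_64d474_lc.A7
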