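import Pool.Agent.Lib.MP_64d474_lc.A7.Defs70
import Pool.Agent.Lib.MP_64d474_lc.AK.Sep86
import Pool.Agent.Lib.MP_64d474_lc.FV.J95

set_option autoImplicit false

/-!
# Rows PROD and JAC1
-/

namespace Pool.Agent.Lib.MP_64d474_lc.A7

open MvPolynomial

universe u

/-- Row PROD. -/
theorem prod95 : StPROD.{u} := by
  intro σ I Γ _ _ γ hγ h
  classical
  by_contra hc
  push Not at hc
  let e : ℕ := Fintype.card σ
  let eq : Fin e ≃ σ := (Fintype.equivFin σ).symm
  obtain ⟨i, c, -, hsep⟩ := AK.sep (Γ := Γ) (ι := I) e (fun _ => 1) (fun l i => γ i (eq l))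
    (fun _ => one_ne_zero) (fun l => by
      obtain ⟨j, hj⟩ := hc (eq l)
      exact ⟨j, fun h1 => hj h1.symm⟩)
  let S : Finset I := Finset.univ.image i
  let c' : I → ℕ := fun j => ∑ m ∈ Finset.univ.filter (fun m => i m = j), c m
  have hS : S.card ≤ Fintype.card σ := by
    refine Finset.card_image_le.trans ?_
    simp [e]
  obtain ⟨q, hq⟩ := h S c' hS
  apply hsep (eq.symm q)
  simp only [one_pow, Finset.prod_const_one, Equiv.apply_symm_apply]
  rw [← hq]
  rw [← Finset.prod_fiberwise_of_maps_to (s := Finset.univ) (t := S) (g := i)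
    (fun m _ => Finset.mem_image_of_mem i (Finset.mem_univ m))]
  apply Finset.prod_congr rfl
  intro j _
  rw [← Finset.prod_pow_eq_pow_sum]
  apply Finset.prod_congr rfl
  intro m hm
  rw [(Finset.mem_filter.1 hm).2]

/-- Row JAC1. -/
theorem jac1_95 : StJAC1.{u} := by
  intro K _ _ r c hc
  obtain ⟨κ, hκ⟩ := FV.J95.stJ95 K r r c hc
  have hinj : Function.Injective κ := by
    intro a b hab
    by_contra hne
    apply hκ
    apply Matrix.det_zero_of_column_eq hne
    intro j
    simp [hab]
  let e : Equiv.Perm (Fin r) := Equiv.ofBijective κ (Finite.injective_iff_bijective.1 hinj)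
  intro h0
  apply hκ
  have h1 : (Matrix.of fun j a => pderiv (κ a) (c j)) =
      (Matrix.of fun i a => pderiv a (c i)).submatrix id e := by
    ext i a
    rfl
  rw [h1, Matrix.det_permute', h0, mul_zero]

end Pool.Agent.Lib.MP_64d474_lc.A7
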