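import Pool.Agent.Lib.MP_64d474_lc.A7.Hlp70

set_option autoImplicit false

/-!
# Row T: two worlds
-/

namespace Pool.Agent.Lib.MP_64d474_lc.A7

open MvPolynomial Cardinal

universe u v w

/-- lexicographic positivity -/
def LPos {r : ℕ} (ν : Fin r → ℤ) : Prop := toLex (0 : Fin r → ℤ) < toLex ν

theorem LPos.add {r : ℕ} {a b : Fin r → ℤ} (ha : LPos a) (hb : LPos b) : LPos (a + b) := by
  unfold LPos at *
  have h := add_lt_add ha hb
  rw [toLex_zero, add_zero] at h
  rw [toLex_zero, toLex_add]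
  exact h

theorem not_lpos_zero {r : ℕ} : ¬ LPos (0 : Fin r → ℤ) := lt_irrefl _

theorem lpos_or {r : ℕ} {ν : Fin r → ℤ} (h : ν ≠ 0) : LPos ν ∨ LPos (-ν) := by
  unfold LPos
  rcases lt_trichotomy (toLex (0 : Fin r → ℤ)) (toLex ν) with h1 | h1 | h1
  · exact Or.inl h1
  · exact absurd (toLex_inj.1 h1).symm h
  · right
    rw [toLex_zero] at h1 ⊢
    rw [toLex_neg]
    exact neg_pos.2 h1

/-- a family all of whose nonzero exponents have a sign is value-independent -/
theorem vind_of_pos {E Γ : Type*} [Field E] [LinearOrderedCommGroupWithZero Γ] {r : ℕ}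
    (v : Valuation E Γ) (t : Fin r → E) (pos : (Fin r → ℤ) → Prop)
    (hor : ∀ ν, ν ≠ 0 → pos ν ∨ pos (-ν)) (h : ∀ ν, pos ν → v (∏ j, t j ^ ν j) < 1) :
    VInd v t := by
  intro ν hν
  by_contra hne
  rcases hor ν hne with h1 | h1
  · exact absurd hν (h ν h1).ne
  · have h2 := h _ h1
    have h3 : ∏ j, t j ^ (-ν) j = (∏ j, t j ^ ν j)⁻¹ := by
      rw [← Finset.prod_inv_distrib]
      exact Finset.prod_congr rfl fun j _ => by rw [Pi.neg_apply, zpow_neg]
    rw [h3, map_inv₀, hν, inv_one] at h2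
    exact lt_irrefl _ h2

theorem prod_zpow_add {E : Type*} [Field E] {r : ℕ} (t : Fin r → E) (ht : ∀ j, t j ≠ 0)
    (a b : Fin r → ℤ) : ∏ j, t j ^ (a + b) j = (∏ j, t j ^ a j) * ∏ j, t j ^ b j := by
  rw [← Finset.prod_mul_distrib]
  exact Finset.prod_congr rfl fun j _ => by rw [Pi.add_apply, zpow_add₀ (ht j)]

/-- the transcendence degree of the field of rational functions -/
theorem card_le_of_indep {K : Type u} [Field K] {r l : ℕ}
    (y : Fin l → FractionRing (MvPolynomial (Fin r) K)) (hy : AlgebraicIndependent K y) :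
    l ≤ r := by
  have hx : IsTranscendenceBasis K
      (algebraMap (MvPolynomial (Fin r) K) (FractionRing (MvPolynomial (Fin r) K)) ∘
        (X : Fin r → MvPolynomial (Fin r) K)) := by
    have : Algebra.IsAlgebraic (MvPolynomial (Fin r) K)
        (FractionRing (MvPolynomial (Fin r) K)) :=
      IsLocalization.isAlgebraic _ (nonZeroDivisors (MvPolynomial (Fin r) K))
    exact (IsTranscendenceBasis.mvPolynomial (Fin r) K).algebraMap_comp
  have h1 := hy.lift_cardinalMk_le_trdeg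
  have h2 := hx.lift_cardinalMk_eq_trdeg
  rw [← h2] at h1
  simpa using h1

/-- an algebraically closed field over the field of rational functions -/
theorem exists_closure (K : Type u) [Field K] (r : ℕ) :
    ∃ (Ω : Type u) (_ : Field Ω) (_ : Algebra K Ω) (_ : IsAlgClosed Ω)
      (ψ : MvPolynomial (Fin r) K →ₐ[K] Ω), Function.Injective ψ := by
  refine ⟨AlgebraicClosure (FractionRing (MvPolynomial (Fin r) K)), inferInstance, inferInstance,
    inferInstance, (IsScalarTower.toAlgHom K (FractionRing (MvPolynomial (Fin r) K)) _).comp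
      (IsScalarTower.toAlgHom K (MvPolynomial (Fin r) K)
        (FractionRing (MvPolynomial (Fin r) K))), ?_⟩
  refine Function.Injective.comp (g := IsScalarTower.toAlgHom K
    (FractionRing (MvPolynomial (Fin r) K)) _) (RingHom.injective _) ?_
  exact IsFractionRing.injective _ _

/-- The values of the factors at one solution in world 1. -/
theorem exists_solution (hVAL : StVAL.{u}) (hBEZ : StBEZ.{u}) (hROOT : StROOT.{u})
    (hPROD : StPROD.{u})
    (K₀ K₁ : Type u) [Field K₀] [Field K₁] (r d : ℕ) (I : Type) [Fintype I]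
    (P₀ : I → MvPolynomial (Fin r) K₀) (P₁ : I → MvPolynomial (Fin r) K₁)
    (hP₀ : ∀ i, P₀ i ≠ 0) (hd : ∀ i, (P₁ i).totalDegree ≤ d)
    (hS : ∀ S : Finset I, S.card ≤ r + (r * d + 1) ^ r →
      ∃ (k : Type u) (_ : Field k) (ι₀ : k →+* K₀) (ι₁ : k →+* K₁)
        (p : I → MvPolynomial (Fin r) k), ∀ i ∈ S, map ι₀ (p i) = P₀ i ∧ map ι₁ (p i) = P₁ i)
    (Γ₀ : Type u) [LinearOrderedCommGroupWithZero Γ₀]
    (v₀ : Valuation (FractionRing (MvPolynomial (Fin r) K₀)) Γ₀)
    (hv₀ : ∀ a : K₀, a ≠ 0 → v₀ (algebraMap K₀ _ a) = 1)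
    (c : Fin r → I)
    (hc : VInd v₀ fun j => algebraMap (MvPolynomial (Fin r) K₀)
      (FractionRing (MvPolynomial (Fin r) K₀)) (P₀ (c j)))
    (hci : AlgebraicIndependent K₀ fun j => P₀ (c j))
    (a : I → ℕ) (ν : I → Fin r → ℤ)
    (hν : ∀ i, v₀ (algebraMap (MvPolynomial (Fin r) K₀)
      (FractionRing (MvPolynomial (Fin r) K₀)) (P₀ i)) ^ a i =
        ∏ j, v₀ (algebraMap (MvPolynomial (Fin r) K₀)
          (FractionRing (MvPolynomial (Fin r) K₀)) (P₀ (c j))) ^ ν i j) :
    ∃ (Ω Γ₁ : Type u) (_ : Field Ω) (_ : Algebra K₁ Ω) (_ : LinearOrderedCommGroupWithZero Γ₁)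
      (v₁ : Valuation Ω Γ₁) (q : Fin r → Ω),
      (∀ a : K₁, a ≠ 0 → v₁ (algebraMap K₁ Ω a) = 1) ∧
      (∀ i, aeval q (P₁ i) ≠ 0) ∧
      VInd v₁ (fun j => aeval q (P₁ (c j))) ∧
      ∀ i, v₁ (aeval q (P₁ i)) ^ a i = ∏ j, v₁ (aeval q (P₁ (c j))) ^ ν i j := by
  classical
  set E := FractionRing (MvPolynomial (Fin r) K₀) with hE
  set φ : MvPolynomial (Fin r) K₀ →+* E := algebraMap _ _ with hφ
  have hφi : Function.Injective φ := IsFractionRing.injective _ _
  have hPE : ∀ i, φ (P₀ i) ≠ 0 := fun i h => hP₀ i (hφi (by rw [h, map_zero]))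
  have hP₁ : ∀ i, P₁ i ≠ 0 := by
    intro i h
    obtain ⟨k, _, ι₀, ι₁, p, hp⟩ := hS {i} (by
      rw [Finset.card_singleton]
      have : 1 ≤ (r * d + 1) ^ r := Nat.one_le_pow _ _ (Nat.succ_pos _)
      omega)
    obtain ⟨h1, h2⟩ := hp i (Finset.mem_singleton_self i)
    apply hP₀ i
    rw [h, ← map_zero (map ι₁)] at h2
    rw [← h1, map_injective ι₁ ι₁.injective h2, map_zero]
  -- world 1
  have hcard : (Finset.univ.image c).card ≤ r := by
    refine Finset.card_image_le.trans ?_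
    simp
  have hc1 : AlgebraicIndependent K₁ fun j => P₁ (c j) := by
    obtain ⟨k, _, ι₀, ι₁, p, hp⟩ := hS (Finset.univ.image c) (by omega)
    have h1 : ∀ j, map ι₀ (p (c j)) = P₀ (c j) ∧ map ι₁ (p (c j)) = P₁ (c j) := fun j =>
      hp (c j) (Finset.mem_image_of_mem c (Finset.mem_univ j))
    have h2 : AlgebraicIndependent k fun j => p (c j) := by
      apply indep_of_map ι₀
      convert hci using 2 with j
      exact (h1 j).1
    convert indep_map ι₁ _ h2 using 2 with j
    exact (h1 j).2.symm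
  obtain ⟨Ω, _, _, _, ψ, hψi⟩ := exists_closure K₁ r
  let t : Fin r → Ω := fun j => ψ (P₁ (c j))
  have ht : AlgebraicIndependent K₁ t := hc1.map' hψi
  let pos : (Fin r → ℤ) → Prop := fun ν => v₀ (∏ j, φ (P₀ (c j)) ^ ν j) < 1
  have hpos0 : ¬ pos 0 := by
    simp [pos]
  have hposadd : ∀ a b, pos a → pos b → pos (a + b) := by
    intro a b ha hb
    change v₀ _ < 1
    rw [prod_zpow_add _ fun j => hPE (c j), map_mul]
    exact mul_lt_one_of_nonneg_of_lt_one_left zero_le ha hb.le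
  obtain ⟨V, hV, hVpos⟩ := hVAL K₁ Ω r t ht pos hpos0 hposadd
  have hv₁ := val_eq_one V hV
  have hor : ∀ ν, ν ≠ 0 → pos ν ∨ pos (-ν) := by
    intro ν hν
    have h1 : v₀ (∏ j, φ (P₀ (c j)) ^ ν j) ≠ 1 := fun h => hν (hc ν h)
    rcases lt_or_gt_of_ne h1 with h2 | h2
    · exact Or.inl h2
    · right
      change v₀ _ < 1
      have h3 : ∏ j, φ (P₀ (c j)) ^ (-ν) j = (∏ j, φ (P₀ (c j)) ^ ν j)⁻¹ := by
        rw [← Finset.prod_inv_distrib]
        exact Finset.prod_congr rfl fun j _ => by rw [Pi.neg_apply, zpow_neg]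
      rw [h3, map_inv₀]
      exact inv_lt_one_of_one_lt₀ h2
  have htV : VInd V.valuation t := vind_of_pos _ _ pos hor hVpos
  have ht0 : ∀ j, t j ≠ 0 := fun j h => hP₁ (c j) (hψi (by rw [map_zero]; exact h))
  -- the solutions
  have hfin : {q : Fin r → Ω | ∀ j, aeval q (P₁ (c j)) = t j}.Finite := by
    by_contra hinf
    obtain ⟨A, hA, hAc⟩ := Set.Infinite.exists_subset_card_eq hinf ((r * d + 1) ^ r + 1)
    have := hBEZ K₁ Ω r d (fun j => P₁ (c j)) t (fun j => hd _) ht A (fun q hq => hA hq)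
    omega
  obtain ⟨Sol, hSol⟩ : ∃ Sol : Finset (Fin r → Ω), ∀ q, q ∈ Sol ↔
      ∀ j, aeval q (P₁ (c j)) = t j := ⟨hfin.toFinset, fun q => by simp⟩
  have hcardSol : Sol.card ≤ (r * d + 1) ^ r :=
    hBEZ K₁ Ω r d (fun j => P₁ (c j)) t (fun j => hd _) ht Sol (fun q hq => (hSol q).1 hq)
  let e := Sol.equivFin
  let sol : Fin Sol.card → Fin r → Ω := fun s => (e.symm s : Fin r → Ω)
  have hsol : ∀ s j, aeval (sol s) (P₁ (c j)) = t j := fun s => (hSol _).1 (e.symm s).2
  have hgen : ∀ s, AlgebraicIndependent K₁ (sol s) := by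
    intro s
    apply generic_of_indep (fun j => P₁ (c j))
    have : (fun j => aeval (sol s) (P₁ (c j))) = t := funext (hsol s)
    rw [this]
    exact ht
  have hne : ∀ s i, aeval (sol s) (P₁ i) ≠ 0 := by
    intro s i h
    exact hP₁ i ((hgen s).eq_zero_of_aeval_eq_zero _ h)
  let v₁ := V.valuation
  have hvne : ∀ x : Ω, x ≠ 0 → v₁ x ≠ 0 := fun x hx => (Valuation.ne_zero_iff _).2 hx
  let γ : I → Fin Sol.card → V.ValueGroup := fun i s =>
    v₁ (aeval (sol s) (P₁ i)) ^ a i * (∏ j, v₁ (t j) ^ ν i j)⁻¹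
  have hγ0 : ∀ i s, γ i s ≠ 0 := by
    intro i s
    refine mul_ne_zero (pow_ne_zero _ (hvne _ (hne s i))) (inv_ne_zero ?_)
    exact Finset.prod_ne_zero_iff.2 fun j _ => zpow_ne_zero _ (hvne _ (ht0 j))
  have hkey : ∃ s, ∀ i, γ i s = 1 := by
    apply hPROD (Fin Sol.card) I V.ValueGroup γ hγ0
    intro S cc hScard
    rw [Fintype.card_fin] at hScard
    obtain ⟨k, _, ι₀, ι₁, p, hp⟩ := hS (S ∪ Finset.univ.image c) (by
      have := Finset.card_union_le S (Finset.univ.image c)
      omega)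
    have hpc : ∀ j, map ι₀ (p (c j)) = P₀ (c j) ∧ map ι₁ (p (c j)) = P₁ (c j) := fun j =>
      hp (c j) (Finset.mem_union_right _ (Finset.mem_image_of_mem c (Finset.mem_univ j)))
    have hps : ∀ i ∈ S, map ι₀ (p i) = P₀ i ∧ map ι₁ (p i) = P₁ i := fun i hi =>
      hp i (Finset.mem_union_left _ hi)
    let _ : Algebra k K₀ := ι₀.toAlgebra
    let _ : Algebra k K₁ := ι₁.toAlgebra
    let _ : Algebra k E := ((algebraMap K₀ E).comp ι₀).toAlgebra
    let _ : Algebra k Ω := ((algebraMap K₁ Ω).comp ι₁).toAlgebra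
    let x : Fin r → E := fun j => φ (X j)
    have hxe : ∀ P : MvPolynomial (Fin r) k, aeval x P = φ (map ι₀ P) := by
      intro P
      induction P using MvPolynomial.induction_on with
      | C b =>
        rw [aeval_C, map_C]
        change algebraMap K₀ E (ι₀ b) = algebraMap (MvPolynomial (Fin r) K₀) E _
        rw [IsScalarTower.algebraMap_apply K₀ (MvPolynomial (Fin r) K₀) E]
        rfl
      | add f g hf hg => rw [map_add, map_add, map_add, hf, hg]
      | mul_X f j hf => rw [map_mul, map_mul, map_mul, hf, aeval_X, map_X]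
    have hqe : ∀ (q : Fin r → Ω) (P : MvPolynomial (Fin r) k),
        aeval q P = aeval q (map ι₁ P) := by
      intro q P
      induction P using MvPolynomial.induction_on with
      | C b =>
        rw [aeval_C, map_C, aeval_C]
        rfl
      | add f g hf hg => rw [map_add, map_add, map_add, hf, hg]
      | mul_X f j hf => rw [map_mul, map_mul, map_mul, hf, aeval_X, map_X, aeval_X]
    have hx : AlgebraicIndependent k x := by
      rw [algebraicIndependent_iff]
      intro P hP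
      rw [hxe] at hP
      have h1 : map ι₀ P = 0 := hφi (by rw [hP, map_zero])
      exact map_injective ι₀ ι₀.injective (by rw [h1, map_zero])
    let μ : Fin r → ℤ := fun j => ∑ i ∈ S, (cc i : ℤ) * ν i j
    let A : MvPolynomial (Fin r) k :=
      (∏ i ∈ S, p i ^ (a i * cc i)) * ∏ j, p (c j) ^ (-μ j).toNat
    let B : MvPolynomial (Fin r) k := ∏ j, p (c j) ^ (μ j).toNat
    have hpne : ∀ i ∈ S, p i ≠ 0 := by
      intro i hi h
      apply hP₀ i
      rw [← (hps i hi).1, h, map_zero]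
    have hpcne : ∀ j, p (c j) ≠ 0 := by
      intro j h
      apply hP₀ (c j)
      rw [← (hpc j).1, h, map_zero]
    have hA0 : A ≠ 0 := mul_ne_zero
      (Finset.prod_ne_zero_iff.2 fun i hi => pow_ne_zero _ (hpne i hi))
      (Finset.prod_ne_zero_iff.2 fun j _ => pow_ne_zero _ (hpcne j))
    have hB0 : B ≠ 0 := Finset.prod_ne_zero_iff.2 fun j _ => pow_ne_zero _ (hpcne j)
    -- a general identity of values
    have hident : ∀ {Γ : Type u} [LinearOrderedCommGroupWithZero Γ] (g : I → Γ) (h : Fin r → Γ),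
        (∀ j, h j ≠ 0) →
        ((∏ i ∈ S, g i ^ (a i * cc i)) * ∏ j, h j ^ (-μ j).toNat = ∏ j, h j ^ (μ j).toNat ↔
          ∏ i ∈ S, (g i ^ a i * (∏ j, h j ^ ν i j)⁻¹) ^ cc i = 1) := by
      intro Γ _ g h hh
      have e1 : ∏ i ∈ S, (g i ^ a i * (∏ j, h j ^ ν i j)⁻¹) ^ cc i =
          (∏ i ∈ S, g i ^ (a i * cc i)) * (∏ j, h j ^ μ j)⁻¹ := by
        have e2 : ∏ j, h j ^ μ j = ∏ i ∈ S, (∏ j, h j ^ ν i j) ^ cc i := by
          have e3 : ∀ i ∈ S, (∏ j, h j ^ ν i j) ^ cc i = ∏ j, h j ^ ((cc i : ℤ) * ν i j) := by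
            intro i _
            rw [← Finset.prod_pow]
            refine Finset.prod_congr rfl fun j _ => ?_
            rw [mul_comm, zpow_mul, zpow_natCast]
          rw [Finset.prod_congr rfl e3, Finset.prod_comm]
          exact Finset.prod_congr rfl fun j _ => (prod_zpow_sum (hh j) S _).symm
        rw [e2, ← Finset.prod_inv_distrib, ← Finset.prod_mul_distrib]
        refine Finset.prod_congr rfl fun i _ => ?_
        rw [mul_pow, inv_pow, ← pow_mul]
      have e4 : ∏ j, h j ^ μ j =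
          (∏ j, h j ^ (μ j).toNat) * (∏ j, h j ^ (-μ j).toNat)⁻¹ := by
        rw [← Finset.prod_inv_distrib, ← Finset.prod_mul_distrib]
        refine Finset.prod_congr rfl fun j _ => ?_
        rw [← zpow_natCast, ← zpow_natCast, ← zpow_neg, ← zpow_add₀ (hh j)]
        congr 1
        omega
      have h5 : (∏ j, h j ^ (μ j).toNat) ≠ 0 :=
        Finset.prod_ne_zero_iff.2 fun j _ => pow_ne_zero _ (hh j)
      have h6 : (∏ j, h j ^ (-μ j).toNat) ≠ 0 :=
        Finset.prod_ne_zero_iff.2 fun j _ => pow_ne_zero _ (hh j)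
      rw [e1, e4, mul_inv, inv_inv, mul_comm (∏ j, h j ^ (μ j).toNat)⁻¹, ← mul_assoc,
        ← div_eq_mul_inv, div_eq_one_iff_eq h5]
    have hpE : ∀ j, aeval x (p (c j)) = φ (P₀ (c j)) := fun j => by rw [hxe, (hpc j).1]
    have hval0 : v₀ (aeval x A) = v₀ (aeval x B) := by
      have h1 : v₀ (aeval x A) = (∏ i ∈ S, v₀ (aeval x (p i)) ^ (a i * cc i)) *
          ∏ j, v₀ (aeval x (p (c j))) ^ (-μ j).toNat := by
        simp only [A, map_mul, map_prod, map_pow]
      have h2 : v₀ (aeval x B) = ∏ j, v₀ (aeval x (p (c j))) ^ (μ j).toNat := by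
        simp only [B, map_prod, map_pow]
      rw [h1, h2]
      have h5 : ∀ i ∈ S, v₀ (aeval x (p i)) = v₀ (φ (P₀ i)) := by
        intro i hi
        rw [hxe, (hps i hi).1]
      have h6 : ∀ j, v₀ (aeval x (p (c j))) = v₀ (φ (P₀ (c j))) := by
        intro j
        rw [hpE]
      have h7 := (hident (fun i => v₀ (φ (P₀ i))) (fun j => v₀ (φ (P₀ (c j))))
        (fun j => (Valuation.ne_zero_iff _).2 (hPE (c j)))).2 (by
          apply Finset.prod_eq_one
          intro i _
          rw [hν i, mul_inv_cancel₀, one_pow]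
          exact Finset.prod_ne_zero_iff.2 fun j _ =>
            zpow_ne_zero _ ((Valuation.ne_zero_iff _).2 (hPE (c j))))
      simp only [h6]
      rw [← h7]
      congr 1
      exact Finset.prod_congr rfl fun i hi => by rw [h5 i hi]
    obtain ⟨q, hq, hqAB⟩ := hROOT k E Ω Γ₀ V.ValueGroup v₀ v₁ r x (fun j => p (c j)) t A B hx
      (fun b hb => hv₀ (ι₀ b) ((map_ne_zero ι₀).2 hb))
      (fun b hb => hv₁ (ι₁ b) ((map_ne_zero ι₁).2 hb))
      (fun j => by rw [hpE]; exact hPE _) ht0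
      (by
        have : (fun j => aeval x (p (c j))) = fun j => φ (P₀ (c j)) := funext hpE
        rw [this]
        exact hc)
      (by
        intro ν' hν'
        apply hVpos
        change v₀ _ < 1
        convert hν' using 5 with j
        exact (hpE j).symm)
      hA0 hB0 hval0
    have hqSol : q ∈ Sol := by
      rw [hSol]
      intro j
      rw [← (hpc j).2, ← hqe]
      exact hq j
    refine ⟨e ⟨q, hqSol⟩, ?_⟩
    have hsq : sol (e ⟨q, hqSol⟩) = q := by simp [sol]
    have h1 : v₁ (aeval q A) = (∏ i ∈ S, v₁ (aeval q (p i)) ^ (a i * cc i)) *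
        ∏ j, v₁ (aeval q (p (c j))) ^ (-μ j).toNat := by
      simp only [A, map_mul, map_prod, map_pow]
    have h2 : v₁ (aeval q B) = ∏ j, v₁ (aeval q (p (c j))) ^ (μ j).toNat := by
      simp only [B, map_prod, map_pow]
    have h5 : ∀ i ∈ S, v₁ (aeval q (p i)) = v₁ (aeval q (P₁ i)) := by
      intro i hi
      rw [hqe, (hps i hi).2]
    have h6 : ∀ j, v₁ (aeval q (p (c j))) = v₁ (t j) := by
      intro j
      rw [hq j]
    have h7 := (hident (fun i => v₁ (aeval q (P₁ i))) (fun j => v₁ (t j))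
      (fun j => hvne _ (ht0 j))).1 (by
        simp only [← h6]
        rw [← h2, ← hqAB, h1]
        congr 1
        exact Finset.prod_congr rfl fun i hi => by rw [h5 i hi])
    rw [← h7]
    refine Finset.prod_congr rfl fun i _ => ?_
    simp only [γ, hsq]
  obtain ⟨s, hs⟩ := hkey
  refine ⟨Ω, V.ValueGroup, _, _, inferInstance, v₁, sol s, hv₁,
    fun i => hne s i, ?_, ?_⟩
  · have : (fun j => aeval (sol s) (P₁ (c j))) = t := funext (hsol s)
    rw [this]
    exact htV
  · intro i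
    have h1 : v₁ (aeval (sol s) (P₁ i)) ^ a i * (∏ j, v₁ (t j) ^ ν i j)⁻¹ = 1 := hs i
    have h2 : (∏ j, v₁ (t j) ^ ν i j) ≠ 0 :=
      Finset.prod_ne_zero_iff.2 fun j _ => zpow_ne_zero _ (hvne _ (ht0 j))
    have h3 := (mul_inv_eq_one₀ h2).1 h1
    rw [h3]
    exact Finset.prod_congr rfl fun j _ => by rw [hsol s j]

/-- Row T from the rows VAL, DOM, CORE, BEZ, ROOT, PROD. -/
theorem t_of (hVAL : StVAL.{u}) (hDOM : StDOM.{u}) (hCORE : StCORE.{u}) (hBEZ : StBEZ.{u})
    (hROOT : StROOT.{u}) (hPROD : StPROD.{u}) : StT.{u} := by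
  classical
  intro K₀ K₁ _ _ r d I _ P₀ P₁ n hP₀ hd hS hT
  let E := FractionRing (MvPolynomial (Fin r) K₀)
  let φ : MvPolynomial (Fin r) K₀ →+* E := algebraMap _ _
  have hφi : Function.Injective φ := IsFractionRing.injective _ _
  have hPE : ∀ i, φ (P₀ i) ≠ 0 := fun i h => hP₀ i (hφi (by rw [h, map_zero]))
  let T : Fin r → E := fun j => φ (∏ i, P₀ i ^ n j i)
  have hTi : AlgebraicIndependent K₀ T :=
    hT.map' (f := IsScalarTower.toAlgHom K₀ (MvPolynomial (Fin r) K₀) E) hφi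
  obtain ⟨V, hV, hVpos⟩ := hVAL K₀ E r T hTi LPos not_lpos_zero (fun a b => LPos.add)
  have hv₀ := val_eq_one V hV
  have hTV : VInd V.valuation T := vind_of_pos _ _ LPos (fun ν hν => lpos_or hν) hVpos
  have hTe : T = fun j => ∏ i, φ (P₀ i) ^ n j i := by
    funext j
    change φ _ = _
    rw [map_prod]
    exact Finset.prod_congr rfl fun i _ => by rw [map_pow]
  obtain ⟨c, hc, hcore⟩ := hCORE K₀ E V.ValueGroup V.valuation r I (fun i => φ (P₀ i)) n hv₀ hPE
    (fun l y hy => card_le_of_indep y hy) (by rw [← hTe]; exact hTV)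
  choose a ν ha hν using hcore
  have hci : AlgebraicIndependent K₀ fun j => P₀ (c j) := by
    have h1 := (hDOM K₀ E V.ValueGroup V.valuation r (fun j => φ (P₀ (c j))) hv₀
      (fun j => hPE _) hc).1
    exact AlgebraicIndependent.of_comp
      (IsScalarTower.toAlgHom K₀ (MvPolynomial (Fin r) K₀) E) h1
  obtain ⟨Ω, Γ₁, _, _, _, v₁, q, hv₁, hq0, hqc, hqν⟩ :=
    exists_solution hVAL hBEZ hROOT hPROD K₀ K₁ r d I P₀ P₁ hP₀ hd hS V.ValueGroup V.valuation
      hv₀ c hc hci a ν (by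
        intro i
        rw [← map_pow, hν i, map_prod]
        exact Finset.prod_congr rfl fun j _ => by rw [map_zpow₀])
  have hA : (∏ i, a i) ≠ 0 := Finset.prod_ne_zero_iff.2 fun i _ => (ha i).ne'
  -- independence of the values of the products in world 1
  have hV1 : VInd v₁ (fun j => aeval q (∏ i, P₁ i ^ n j i)) := by
    intro μ hμ
    have e1 := pow_identity (fun i => v₁ (aeval q (P₁ i))) (fun l => v₁ (aeval q (P₁ (c l))))
      (fun l => (Valuation.ne_zero_iff _).2 (hq0 _)) a ν hqν n μ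
    have e2 : (∏ j, (∏ i, v₁ (aeval q (P₁ i)) ^ n j i) ^ μ j) = 1 := by
      rw [← hμ]
      simp only [map_prod, map_zpow₀, map_pow]
    rw [e2, one_pow] at e1
    have e3 : (fun l => ∑ j, ∑ i, μ j *
        ((n j i : ℤ) * ((∏ i' ∈ Finset.univ.erase i, a i' : ℕ) : ℤ)) * ν i l) = 0 := by
      apply hqc
      rw [map_prod]
      simp only [map_zpow₀]
      exact e1.symm
    have e4 := pow_identity (fun i => V.valuation (φ (P₀ i)))
      (fun l => V.valuation (φ (P₀ (c l))))
      (fun l => (Valuation.ne_zero_iff _).2 (hPE _)) a ν (by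
        intro i
        rw [← map_pow, hν i, map_prod]
        exact Finset.prod_congr rfl fun j _ => by rw [map_zpow₀]) n μ
    have e5 : ∏ l, V.valuation (φ (P₀ (c l))) ^ (∑ j, ∑ i, μ j *
        ((n j i : ℤ) * ((∏ i' ∈ Finset.univ.erase i, a i' : ℕ) : ℤ)) * ν i l) = 1 := by
      apply Finset.prod_eq_one
      intro l _
      have := congrFun e3 l
      simp only [Pi.zero_apply] at this
      rw [this, zpow_zero]
    rw [e5] at e4
    have e6 : ∏ j, (∏ i, V.valuation (φ (P₀ i)) ^ n j i) ^ μ j = 1 :=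
      (pow_eq_one_iff.1 e4).resolve_right hA
    apply hTV
    rw [← e6, map_prod]
    refine Finset.prod_congr rfl fun j _ => ?_
    rw [map_zpow₀, hTe, map_prod]
    congr 1
    exact Finset.prod_congr rfl fun i _ => by rw [map_pow]
  have hT1 : ∀ j, aeval q (∏ i, P₁ i ^ n j i) ≠ 0 := by
    intro j
    rw [map_prod]
    refine Finset.prod_ne_zero_iff.2 fun i _ => ?_
    rw [map_pow]
    exact pow_ne_zero _ (hq0 i)
  have h2 := (hDOM K₁ Ω Γ₁ v₁ r (fun j => aeval q (∏ i, P₁ i ^ n j i)) hv₁ hT1 hV1).1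
  exact AlgebraicIndependent.of_aeval h2

end Pool.Agent.Lib.MP_64d474_lc.A7
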